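import Mathlib

/-!
# The Gaussian integers `c (1 + 2i) π ^ j π̄ ^ (n - j)` with `π = 21 + 4i`
-/

namespace Pool.Agent.R471.Elated

/-- pairs `(re, im)` of `π ^ j π̄ ^ l`, `π = 21 + 4i` -/
def P (j l : ℕ) : GaussianInt := (⟨21, 4⟩ : GaussianInt) ^ j * (⟨21, -4⟩ : GaussianInt) ^ l

theorem P_succ_left (j l : ℕ) : P (j + 1) l = ⟨21, 4⟩ * P j l := by
  unfold P; ring

theorem P_succ_right (j l : ℕ) : P j (l + 1) = ⟨21, -4⟩ * P j l := by
  unfold P; ring

theorem P_mod (j l : ℕ) : (4 : ℤ) ∣ (P j l).re - 1 ∧ (4 : ℤ) ∣ (P j l).im := by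
  induction j with
  | zero =>
    induction l with
    | zero => simp [P]
    | succ l ih =>
      rw [P_succ_right]
      obtain ⟨⟨x, hx⟩, ⟨y, hy⟩⟩ := ih
      have h1 : (P 0 l).re = 4 * x + 1 := by linarith
      refine ⟨⟨21 * x + 5 + 4 * y, ?_⟩, ⟨21 * y - 4 * x - 1, ?_⟩⟩
      · simp [h1, hy]; ring
      · simp [h1, hy]; ring
  | succ j ih =>
    rw [P_succ_left]
    obtain ⟨⟨x, hx⟩, ⟨y, hy⟩⟩ := ih
    have h1 : (P j l).re = 4 * x + 1 := by linarith
    refine ⟨⟨21 * x + 5 - 4 * y, ?_⟩, ⟨21 * y + 4 * x + 1, ?_⟩⟩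
    · simp [h1, hy]; ring
    · simp [h1, hy]; ring

theorem P_norm (j l : ℕ) : (P j l).re ^ 2 + (P j l).im ^ 2 = 457 ^ (j + l) := by
  induction j with
  | zero =>
    induction l with
    | zero => simp [P]
    | succ l ih =>
      rw [P_succ_right]
      simp only [Zsqrtd.re_mul, Zsqrtd.im_mul]
      rw [show (0 + (l + 1)) = (0 + l) + 1 by ring, pow_succ (457 : ℤ), ← ih]
      ring
  | succ j ih =>
    rw [P_succ_left]
    simp only [Zsqrtd.re_mul, Zsqrtd.im_mul]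
    rw [show (j + 1 + l) = (j + l) + 1 by ring, pow_succ (457 : ℤ), ← ih]
    ring

theorem P_rot (j l : ℕ) : 457 * (P (j + 1) l).re = 425 * (P j (l + 1)).re - 168 * (P j (l + 1)).im ∧
    457 * (P (j + 1) l).im = 168 * (P j (l + 1)).re + 425 * (P j (l + 1)).im := by
  rw [P_succ_left, P_succ_right]
  simp only [Zsqrtd.re_mul, Zsqrtd.im_mul]
  constructor <;> ring

theorem pow_pi (k : ℕ) : (457 : ℤ) ∣ ((⟨21, 4⟩ : GaussianInt) ^ (k + 1)).re - 42 ^ k * 21 ∧
    (457 : ℤ) ∣ ((⟨21, 4⟩ : GaussianInt) ^ (k + 1)).im - 42 ^ k * 4 := by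
  induction k with
  | zero => simp
  | succ k ih =>
    obtain ⟨⟨x, hx⟩, ⟨y, hy⟩⟩ := ih
    have h1 : ((⟨21, 4⟩ : GaussianInt) ^ (k + 1)).re = 457 * x + 42 ^ k * 21 := by linarith
    have h2 : ((⟨21, 4⟩ : GaussianInt) ^ (k + 1)).im = 457 * y + 42 ^ k * 4 := by linarith
    rw [pow_succ (⟨21, 4⟩ : GaussianInt) (k + 1)]
    simp only [Zsqrtd.re_mul, Zsqrtd.im_mul, h1, h2]
    refine ⟨⟨21 * x - 4 * y - 42 ^ k, ?_⟩, ⟨4 * x + 21 * y, ?_⟩⟩
    · rw [pow_succ]; ring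
    · rw [pow_succ]; ring

theorem im_pow_pi (k : ℕ) : ((⟨21, 4⟩ : GaussianInt) ^ (k + 1)).im ≠ 0 := by
  intro h
  obtain ⟨y, hy⟩ := (pow_pi k).2
  rw [h] at hy
  have h1 : (457 : ℤ) ∣ 42 ^ k * 4 := ⟨-y, by linarith⟩
  have hp : Prime (457 : ℤ) := by
    rw [← Nat.cast_ofNat (R := ℤ), ← Nat.prime_iff_prime_int]; norm_num
  rcases hp.dvd_or_dvd h1 with h2 | h2
  · have := hp.dvd_of_dvd_pow h2
    norm_num at this
  · norm_num at h2

theorem conj_pow (k : ℕ) : (⟨21, -4⟩ : GaussianInt) ^ k = star ((⟨21, 4⟩ : GaussianInt) ^ k) := by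
  rw [star_pow]
  rfl

theorem P_inj {n j j' : ℕ} (h1 : j < j') (h2 : j' ≤ n) : P j (n - j) ≠ P j' (n - j') := by
  intro h
  obtain ⟨k, rfl⟩ : ∃ k, j' = j + (k + 1) := ⟨j' - j - 1, by omega⟩
  obtain ⟨l, rfl⟩ : ∃ l, n = j + (k + 1) + l := ⟨n - (j + (k + 1)), by omega⟩
  have e1 : j + (k + 1) + l - j = l + (k + 1) := by omega
  have e2 : j + (k + 1) + l - (j + (k + 1)) = l := by omega
  rw [e1, e2] at h
  unfold P at h
  rw [pow_add _ j, pow_add _ l] at h
  have hne : ∀ m, (⟨21, 4⟩ : GaussianInt) ^ m ≠ 0 := fun m => by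
    apply pow_ne_zero
    intro h
    have := congrArg Zsqrtd.re h
    simp at this
  have hne' : ∀ m, (⟨21, -4⟩ : GaussianInt) ^ m ≠ 0 := fun m => by
    apply pow_ne_zero
    intro h
    have := congrArg Zsqrtd.re h
    simp at this
  have h3 : ((⟨21, 4⟩ : GaussianInt) ^ j * (⟨21, -4⟩ : GaussianInt) ^ l) *
      (⟨21, -4⟩ : GaussianInt) ^ (k + 1) =
      ((⟨21, 4⟩ : GaussianInt) ^ j * (⟨21, -4⟩ : GaussianInt) ^ l) *
      (⟨21, 4⟩ : GaussianInt) ^ (k + 1) := by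
    rw [mul_assoc, h]; ring
  have h4 := mul_left_cancel₀ (mul_ne_zero (hne j) (hne' l)) h3
  rw [conj_pow] at h4
  have h5 := congrArg Zsqrtd.im h4
  have h6 := im_pow_pi k
  have h7 : (star ((⟨21, 4⟩ : GaussianInt) ^ (k + 1))).im =
      - ((⟨21, 4⟩ : GaussianInt) ^ (k + 1)).im := rfl
  rw [h7] at h5
  omega

/-- Angles: in every long enough run of consecutive `j`, some `φ + j θ` lies in `(A, A + θ]`
modulo `2 π`. -/
theorem hit (θ : ℝ) (hθ : 0 < θ) (A φ : ℝ) (J : ℕ) : ∃ j : ℕ, J ≤ j ∧ j ≤ J + (⌈2 * Real.pi / θ⌉₊ + 1) ∧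
    ∃ k : ℤ, A < φ + j * θ - k * (2 * Real.pi) ∧ φ + j * θ - k * (2 * Real.pi) ≤ A + θ := by
  have hpi : 0 < 2 * Real.pi := by positivity
  set k : ℤ := ⌈(φ + J * θ - A) / (2 * Real.pi)⌉ with hk
  have h1 : (φ + J * θ - A) / (2 * Real.pi) ≤ k := Int.le_ceil _
  have h2 : (k : ℝ) < (φ + J * θ - A) / (2 * Real.pi) + 1 := Int.ceil_lt_add_one _
  rw [div_le_iff₀ hpi] at h1
  have h2' : (k : ℝ) * (2 * Real.pi) < φ + J * θ - A + 2 * Real.pi := by
    have := mul_lt_mul_of_pos_right h2 hpi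
    rw [add_mul, div_mul_cancel₀ _ hpi.ne'] at this
    linarith
  -- number of further steps
  set x : ℝ := (A + k * (2 * Real.pi) - φ - J * θ) / θ with hx
  have hx0 : 0 ≤ x := by
    apply div_nonneg _ hθ.le
    linarith
  have hx1 : x < 2 * Real.pi / θ := by
    rw [hx]
    apply div_lt_div_of_pos_right _ hθ
    linarith
  have hxθ : x * θ = A + k * (2 * Real.pi) - φ - J * θ := by
    rw [hx, div_mul_cancel₀ _ hθ.ne']
  refine ⟨J + (⌊x⌋₊ + 1), by omega, ?_, k, ?_, ?_⟩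
  · have h3 : (⌊x⌋₊ : ℝ) ≤ x := Nat.floor_le hx0
    have h4 : x < (⌈2 * Real.pi / θ⌉₊ : ℝ) := lt_of_lt_of_le hx1 (Nat.le_ceil _)
    have h5 : ⌊x⌋₊ < ⌈2 * Real.pi / θ⌉₊ := by exact_mod_cast lt_of_le_of_lt h3 h4
    omega
  · have h3 : x < (⌊x⌋₊ : ℝ) + 1 := Nat.lt_floor_add_one x
    have h4 : x * θ < ((⌊x⌋₊ : ℝ) + 1) * θ := mul_lt_mul_of_pos_right h3 hθ
    push_cast
    nlinarith
  · have h3 : (⌊x⌋₊ : ℝ) ≤ x := Nat.floor_le hx0
    have h4 : (⌊x⌋₊ : ℝ) * θ ≤ x * θ := mul_le_mul_of_nonneg_right h3 hθ.le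
    push_cast
    nlinarith

theorem cos_theta : Real.cos (Real.arctan (168 / 425)) = 425 / 457 := by
  rw [Real.cos_arctan]
  have : (1 + (168 / 425 : ℝ) ^ 2) = (457 / 425) ^ 2 := by norm_num
  rw [this, Real.sqrt_sq (by norm_num)]
  norm_num

theorem sin_theta : Real.sin (Real.arctan (168 / 425)) = 168 / 457 := by
  rw [Real.sin_arctan]
  have : (1 + (168 / 425 : ℝ) ^ 2) = (457 / 425) ^ 2 := by norm_num
  rw [this, Real.sqrt_sq (by norm_num)]
  norm_num

theorem sector (φ : ℝ) (h1 : Real.arctan (27 / 100) < φ)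
    (h2 : φ ≤ Real.arctan (27 / 100) + Real.arctan (168 / 425)) :
    0 < Real.cos φ ∧ 27 / 100 * Real.cos φ < Real.sin φ ∧ Real.sin φ < Real.cos φ := by
  have h3 : φ < Real.pi / 4 := by
    refine lt_of_le_of_lt h2 ?_
    rw [Real.arctan_add (by norm_num), ← Real.arctan_one]
    apply Real.arctan_strictMono
    norm_num
  have h0 : 0 < φ := by
    refine lt_trans ?_ h1
    rw [← Real.arctan_zero]
    apply Real.arctan_strictMono
    norm_num
  have hc : 0 < Real.cos φ := Real.cos_pos_of_mem_Ioo ⟨by linarith [Real.pi_pos], by linarith [Real.pi_pos]⟩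
  have ht : Real.tan φ * Real.cos φ = Real.sin φ := Real.tan_mul_cos hc.ne'
  refine ⟨hc, ?_, ?_⟩
  · rw [← ht]
    apply mul_lt_mul_of_pos_right _ hc
    have := Real.tan_lt_tan_of_lt_of_lt_pi_div_two
      (by linarith [Real.neg_pi_div_two_lt_arctan (27 / 100)]) (by linarith [Real.pi_pos]) h1
    rwa [Real.tan_arctan] at this
  · rw [← ht]
    have := Real.tan_lt_tan_of_lt_of_lt_pi_div_two (x := φ) (y := Real.pi / 4)
      (by linarith [Real.pi_pos]) (by linarith [Real.pi_pos]) h3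
    rw [Real.tan_pi_div_four] at this
    nlinarith

/-- The Gaussian integers `c (1 + 2i) π ^ j π̄ ^ (n - j)` visit the sector
`0.27 u < v < u` in every long enough run of consecutive `j`. -/
theorem hit_sector (c : ℤ) (hc : c ≠ 0) (n : ℕ) (J : ℕ)
    (hJ : J + (⌈2 * Real.pi / Real.arctan (168 / 425)⌉₊ + 1) ≤ n) :
    ∃ j : ℕ, J ≤ j ∧ j ≤ J + (⌈2 * Real.pi / Real.arctan (168 / 425)⌉₊ + 1) ∧
      ∃ u v : ℤ, u = c * ((P j (n - j)).re - 2 * (P j (n - j)).im) ∧
        v = c * (2 * (P j (n - j)).re + (P j (n - j)).im) ∧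
        0 < u ∧ 27 * u < 100 * v ∧ v < u := by
  set θ := Real.arctan (168 / 425) with hθ
  have hθ0 : 0 < θ := by
    rw [hθ, ← Real.arctan_zero]
    apply Real.arctan_strictMono
    norm_num
  let u : ℕ → ℤ := fun j => c * ((P j (n - j)).re - 2 * (P j (n - j)).im)
  let v : ℕ → ℤ := fun j => c * (2 * (P j (n - j)).re + (P j (n - j)).im)
  let z : ℂ := ⟨(u 0 : ℝ), (v 0 : ℝ)⟩
  set R := ‖z‖ with hR
  set φ := Complex.arg z with hφ
  have hu0 : R * Real.cos φ = u 0 := by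
    rw [hR, hφ]; exact Complex.norm_mul_cos_arg z
  have hv0 : R * Real.sin φ = v 0 := by
    rw [hR, hφ]; exact Complex.norm_mul_sin_arg z
  have hall : ∀ j, j ≤ n → R * Real.cos (φ + j * θ) = u j ∧ R * Real.sin (φ + j * θ) = v j := by
    intro j
    induction j with
    | zero => intro _; simpa using ⟨hu0, hv0⟩
    | succ j ih =>
      intro hj
      obtain ⟨h1, h2⟩ := ih (by omega)
      have e : φ + ((j + 1 : ℕ) : ℝ) * θ = (φ + j * θ) + θ := by push_cast; ring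
      have c1 : Real.cos θ = 425 / 457 := cos_theta
      have c2 : Real.sin θ = 168 / 457 := sin_theta
      rw [e, Real.cos_add (φ + j * θ) θ, Real.sin_add (φ + j * θ) θ, c1, c2]
      obtain ⟨l, hl⟩ : ∃ l, n = j + 1 + l := ⟨n - (j + 1), by omega⟩
      have e1 : n - (j + 1) = l := by omega
      have e2 : n - j = l + 1 := by omega
      have hrot := P_rot j l
      have k1 : (457 : ℤ) * u (j + 1) = 425 * u j - 168 * v j := by
        simp only [u, v, e1, e2]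
        linear_combination c * hrot.1 - 2 * c * hrot.2
      have k2 : (457 : ℤ) * v (j + 1) = 168 * u j + 425 * v j := by
        simp only [u, v, e1, e2]
        linear_combination 2 * c * hrot.1 + c * hrot.2
      have k1' : (457 : ℝ) * u (j + 1) = 425 * u j - 168 * v j := by exact_mod_cast k1
      have k2' : (457 : ℝ) * v (j + 1) = 168 * u j + 425 * v j := by exact_mod_cast k2
      constructor
      · have : R * (Real.cos (φ + j * θ) * (425 / 457) - Real.sin (φ + j * θ) * (168 / 457)) =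
            (R * Real.cos (φ + j * θ)) * (425 / 457) - (R * Real.sin (φ + j * θ)) * (168 / 457) := by
          ring
        rw [this, h1, h2]
        linarith
      · have : R * (Real.sin (φ + j * θ) * (425 / 457) + Real.cos (φ + j * θ) * (168 / 457)) =
            (R * Real.sin (φ + j * θ)) * (425 / 457) + (R * Real.cos (φ + j * θ)) * (168 / 457) := by
          ring
        rw [this, h1, h2]
        linarith
  have hRpos : 0 < R := by
    rw [hR, norm_pos_iff]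
    intro hz
    have h1 : u 0 = 0 := by
      have := congrArg Complex.re hz
      simpa [z] using this
    have h2 : v 0 = 0 := by
      have := congrArg Complex.im hz
      simpa [z] using this
    have h3 := P_norm 0 (n - 0)
    have h4 : (u 0) ^ 2 + (v 0) ^ 2 = c ^ 2 * 5 * ((P 0 (n - 0)).re ^ 2 + (P 0 (n - 0)).im ^ 2) := by
      simp only [u, v]; ring
    rw [h1, h2, h3] at h4
    have : (0 : ℤ) < c ^ 2 * 5 * 457 ^ (0 + (n - 0)) := by positivity
    omega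
  obtain ⟨j, hj1, hj2, k, hk1, hk2⟩ := hit θ hθ0 (Real.arctan (27 / 100)) φ J
  obtain ⟨s1, s2, s3⟩ := sector _ hk1 hk2
  have hcos : Real.cos (φ + j * θ - k * (2 * Real.pi)) = Real.cos (φ + j * θ) :=
    Real.cos_sub_int_mul_two_pi _ _
  have hsin : Real.sin (φ + j * θ - k * (2 * Real.pi)) = Real.sin (φ + j * θ) :=
    Real.sin_sub_int_mul_two_pi _ _
  rw [hcos] at s1 s2 s3
  rw [hsin] at s2 s3
  obtain ⟨h1, h2⟩ := hall j (by omega)
  refine ⟨j, hj1, hj2, u j, v j, rfl, rfl, ?_, ?_, ?_⟩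
  · have : (0 : ℝ) < u j := by rw [← h1]; positivity
    exact_mod_cast this
  · have : (27 : ℝ) * u j < 100 * v j := by
      rw [← h1, ← h2]
      nlinarith [mul_lt_mul_of_pos_left s2 hRpos]
    exact_mod_cast this
  · have : (v j : ℝ) < u j := by
      rw [← h1, ← h2]
      exact mul_lt_mul_of_pos_left s3 hRpos
    exact_mod_cast this

end Pool.Agent.R471.Elated
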