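import Mathlib

/-!
# Solutions of `17 b² - 5 w² = 63` with `457 ^ m ∣ w`
-/

namespace Pool.Agent.R471.Elated

/-- fast powers of `285769 + 30996 √85` modulo `N` -/
def pw (N : ℕ) : ℕ → ℕ → ℕ × ℕ
  | 0, _ => (1, 0)
  | f + 1, e =>
    (fun r : ℕ × ℕ =>
      (fun q : ℕ × ℕ => bif Nat.beq (e % 2) 0 then q else
        ((q.1 * 285769 + 85 * (q.2 * 30996)) % N, (q.1 * 30996 + q.2 * 285769) % N))
      ((r.1 * r.1 + 85 * (r.2 * r.2)) % N, (2 * (r.1 * r.2)) % N))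
    (pw N f (e / 2))

theorem pw_spec (N : ℕ) : ∀ f e : ℕ, ∃ S T : ℤ, S ^ 2 - 85 * T ^ 2 = 1 ∧
    (S : ZMod N) = ((pw N f e).1 : ZMod N) ∧ (T : ZMod N) = ((pw N f e).2 : ZMod N) := by
  intro f
  induction f with
  | zero =>
    intro e
    exact ⟨1, 0, by norm_num, by simp [pw], by simp [pw]⟩
  | succ f ih =>
    intro e
    obtain ⟨S, T, h1, h2, h3⟩ := ih (e / 2)
    have hsq : (S ^ 2 + 85 * T ^ 2) ^ 2 - 85 * (2 * S * T) ^ 2 = 1 := by
      have : (S ^ 2 + 85 * T ^ 2) ^ 2 - 85 * (2 * S * T) ^ 2 = (S ^ 2 - 85 * T ^ 2) ^ 2 := by ring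
      rw [this, h1]; norm_num
    rcases hb : Nat.beq (e % 2) 0 with _ | _
    · refine ⟨(S ^ 2 + 85 * T ^ 2) * 285769 + 85 * ((2 * S * T) * 30996),
        (S ^ 2 + 85 * T ^ 2) * 30996 + (2 * S * T) * 285769, ?_, ?_, ?_⟩
      · have : ((S ^ 2 + 85 * T ^ 2) * 285769 + 85 * ((2 * S * T) * 30996)) ^ 2 -
            85 * ((S ^ 2 + 85 * T ^ 2) * 30996 + (2 * S * T) * 285769) ^ 2 =
            ((S ^ 2 + 85 * T ^ 2) ^ 2 - 85 * (2 * S * T) ^ 2) * (285769 ^ 2 - 85 * 30996 ^ 2) := by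
          ring
        rw [this, hsq]; norm_num
      · simp only [pw, hb, cond_false, ZMod.natCast_mod]
        push_cast
        simp only [ZMod.natCast_mod]
        push_cast
        rw [h2, h3]
        ring
      · simp only [pw, hb, cond_false, ZMod.natCast_mod]
        push_cast
        simp only [ZMod.natCast_mod]
        push_cast
        rw [h2, h3]
        ring
    · refine ⟨S ^ 2 + 85 * T ^ 2, 2 * S * T, hsq, ?_, ?_⟩
      · simp only [pw, hb, cond_true, ZMod.natCast_mod]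
        push_cast
        rw [h2, h3]
        ring
      · simp only [pw, hb, cond_true, ZMod.natCast_mod]
        push_cast
        rw [h2, h3]
        ring

theorem baseU : ∃ S T a τ : ℤ, S ^ 2 - 85 * T ^ 2 = 1 ∧ S = 1 + 457 ^ 2 * a ∧ T = 457 ^ 2 * τ ∧
    ¬ (457 : ℤ) ∣ τ := by
  obtain ⟨S, T, h1, h2, h3⟩ := pw_spec (457 ^ 3) 18 209306
  have e1 : (pw (457 ^ 3) 18 209306).1 % (457 ^ 2) = 1 := by decide +kernel
  have e2 : (pw (457 ^ 3) 18 209306).2 = 457 ^ 2 * 28 := by decide +kernel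
  have h2' : ((457 ^ 3 : ℕ) : ℤ) ∣ S - ((pw (457 ^ 3) 18 209306).1 : ℕ) := by
    rw [← ZMod.intCast_zmod_eq_zero_iff_dvd]
    push_cast
    rw [h2]; simp
  have h3' : ((457 ^ 3 : ℕ) : ℤ) ∣ T - ((pw (457 ^ 3) 18 209306).2 : ℕ) := by
    rw [← ZMod.intCast_zmod_eq_zero_iff_dvd]
    push_cast
    rw [h3]; simp
  rw [e2] at h3'
  set A := (pw (457 ^ 3) 18 209306).1 with hA
  obtain ⟨c, hc⟩ := h2'
  obtain ⟨d, hd⟩ := h3'
  have hA' : (A : ℤ) = 1 + 457 ^ 2 * ((A / 457 ^ 2 : ℕ) : ℤ) := by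
    have := Nat.div_add_mod A (457 ^ 2)
    rw [e1] at this
    have h5 : ((457 ^ 2 * (A / 457 ^ 2) + 1 : ℕ) : ℤ) = (A : ℤ) := by rw [this]
    push_cast at h5
    push_cast
    linarith
  refine ⟨S, T, ((A / 457 ^ 2 : ℕ) : ℤ) + 457 * c, 28 + 457 * d, h1, ?_, ?_, ?_⟩
  · have : S = (A : ℤ) + 457 ^ 3 * c := by push_cast at hc; linarith
    rw [this, hA']; ring
  · push_cast at hd
    have : T = 457 ^ 2 * 28 + 457 ^ 3 * d := by linarith
    rw [this]; ring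
  · intro h
    have h6 : (457 : ℤ) ∣ 457 * d := dvd_mul_right _ _
    have h7 : (457 : ℤ) ∣ 28 + 457 * d - 457 * d := dvd_sub h h6
    rw [add_sub_cancel_right] at h7
    norm_num at h7

theorem baseV : ∃ b w : ℤ, 17 * b ^ 2 - 5 * w ^ 2 = 63 ∧ (457 : ℤ) ^ 2 ∣ w := by
  obtain ⟨S, T, h1, h2, h3⟩ := pw_spec (457 ^ 2) 18 24458
  refine ⟨2 * S + 5 * T, S + 34 * T, ?_, ?_⟩
  · have : 17 * (2 * S + 5 * T) ^ 2 - 5 * (S + 34 * T) ^ 2 = 63 * (S ^ 2 - 85 * T ^ 2) := by ring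
    rw [this, h1]; norm_num
  · have h4 : ((457 ^ 2 : ℕ) : ℤ) ∣ S + 34 * T := by
      rw [← ZMod.intCast_zmod_eq_zero_iff_dvd]
      push_cast
      rw [h2, h3]
      have e : ((pw (457 ^ 2) 18 24458).1 + 34 * (pw (457 ^ 2) 18 24458).2) % 457 ^ 2 = 0 := by
        decide +kernel
      have h5 : (((pw (457 ^ 2) 18 24458).1 + 34 * (pw (457 ^ 2) 18 24458).2 : ℕ) :
          ZMod (457 ^ 2)) = 0 := by
        rw [ZMod.natCast_eq_zero_iff]
        exact Nat.dvd_of_mod_eq_zero e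
      push_cast at h5
      exact h5
    exact_mod_cast h4

theorem stepU (q : ℤ) (S T a τ : ℤ) (h : S ^ 2 - 85 * T ^ 2 = 1) (hS : S = 1 + q * a)
    (hT : T = q * τ) : ∀ k : ℕ, ∃ S' T' c d : ℤ, S' ^ 2 - 85 * T' ^ 2 = 1 ∧
      S' = 1 + k * q * a + q ^ 2 * c ∧ T' = k * q * τ + q ^ 2 * d := by
  intro k
  induction k with
  | zero => exact ⟨1, 0, 0, 0, by norm_num, by push_cast; ring, by push_cast; ring⟩
  | succ k ih =>
    obtain ⟨S', T', c, d, h1, h2, h3⟩ := ih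
    refine ⟨S' * S + 85 * (T' * T), S' * T + T' * S,
      k * a * a + c * (1 + q * a) + 85 * (k * τ * τ + q * d * τ),
      k * a * τ + q * c * τ + k * τ * a + d * (1 + q * a), ?_, ?_, ?_⟩
    · have : (S' * S + 85 * (T' * T)) ^ 2 - 85 * (S' * T + T' * S) ^ 2 =
          (S' ^ 2 - 85 * T' ^ 2) * (S ^ 2 - 85 * T ^ 2) := by ring
      rw [this, h1, h]; norm_num
    · rw [h2, h3, hS, hT]; push_cast; ring
    · rw [h2, h3, hS, hT]; push_cast; ring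

theorem allU (n : ℕ) : ∃ S T a τ : ℤ, S ^ 2 - 85 * T ^ 2 = 1 ∧ S = 1 + 457 ^ (n + 2) * a ∧
    T = 457 ^ (n + 2) * τ ∧ ¬ (457 : ℤ) ∣ τ := by
  induction n with
  | zero => exact baseU
  | succ n ih =>
    obtain ⟨S, T, a, τ, h, hS, hT, hτ⟩ := ih
    obtain ⟨S', T', c, d, h1, h2, h3⟩ := stepU (457 ^ (n + 2)) S T a τ h hS hT 457
    refine ⟨S', T', a + 457 ^ (n + 1) * c, τ + 457 ^ (n + 1) * d, h1, ?_, ?_, ?_⟩
    · rw [h2]; push_cast; ring
    · rw [h3]; push_cast; ring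
    · intro hd
      apply hτ
      have : (457 : ℤ) ∣ 457 ^ (n + 1) * d := ⟨457 ^ n * d, by ring⟩
      have := dvd_sub hd this
      simpa using this

theorem stepV (q : ℤ) (S T a τ b w ω : ℤ) (h : S ^ 2 - 85 * T ^ 2 = 1) (hS : S = 1 + q * a)
    (hT : T = q * τ) (hbw : 17 * b ^ 2 - 5 * w ^ 2 = 63) (hw : w = q * ω) :
    ∀ k : ℕ, ∃ b' w' c d : ℤ, 17 * b' ^ 2 - 5 * w' ^ 2 = 63 ∧ b' = b + q * c ∧
      w' = q * (ω + 17 * k * τ * b) + q ^ 2 * d := by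
  intro k
  induction k with
  | zero => exact ⟨b, w, 0, 0, hbw, by ring, by rw [hw]; push_cast; ring⟩
  | succ k ih =>
    obtain ⟨b', w', c, d, h1, h2, h3⟩ := ih
    refine ⟨S * b' + 5 * (T * w'), S * w' + 17 * (T * b'),
      c + a * (b + q * c) + 5 * (τ * (q * (ω + 17 * k * τ * b) + q ^ 2 * d)),
      d + a * ((ω + 17 * k * τ * b) + q * d) + 17 * (τ * c), ?_, ?_, ?_⟩
    · have : 17 * (S * b' + 5 * (T * w')) ^ 2 - 5 * (S * w' + 17 * (T * b')) ^ 2 =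
          (17 * b' ^ 2 - 5 * w' ^ 2) * (S ^ 2 - 85 * T ^ 2) := by ring
      rw [this, h1, h]; norm_num
    · rw [h2, h3, hS, hT]; ring
    · rw [h2, h3, hS, hT]; push_cast; ring

theorem prime457 : Nat.Prime 457 := by norm_num

theorem h17' : (17 : ZMod 457) ≠ 0 := by decide

theorem allV (n : ℕ) : ∃ b w : ℤ, 17 * b ^ 2 - 5 * w ^ 2 = 63 ∧ (457 : ℤ) ^ (n + 2) ∣ w := by
  induction n with
  | zero => exact baseV
  | succ n ih =>
    obtain ⟨b, w, hbw, ω, hw⟩ := ih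
    obtain ⟨S, T, a, τ, h, hS, hT, hτ⟩ := allU n
    have hpb : ¬ (457 : ℤ) ∣ b := by
      rintro ⟨c, rfl⟩
      have : (457 : ℤ) ∣ 63 := by
        rw [← hbw, hw]
        exact ⟨17 * 457 * c ^ 2 - 5 * (457 ^ (2 * n + 3) * ω ^ 2), by ring⟩
      norm_num at this
    have : Fact (Nat.Prime 457) := ⟨prime457⟩
    have hτ' : (τ : ZMod 457) ≠ 0 := by
      rw [Ne, ZMod.intCast_zmod_eq_zero_iff_dvd]; exact_mod_cast hτ
    have hb' : (b : ZMod 457) ≠ 0 := by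
      rw [Ne, ZMod.intCast_zmod_eq_zero_iff_dvd]; exact_mod_cast hpb
    have h17 : (17 : ZMod 457) ≠ 0 := h17'
    obtain ⟨k, hk⟩ : ∃ k : ℕ, (457 : ℤ) ∣ ω + 17 * k * τ * b := by
      refine ⟨(-(ω : ZMod 457) / (17 * τ * b)).val, ?_⟩
      have : (((457 : ℕ) : ℤ)) ∣ ω + 17 * (((-(ω : ZMod 457) / (17 * τ * b)).val : ℕ) : ℤ) * τ * b := by
        rw [← ZMod.intCast_zmod_eq_zero_iff_dvd]
        push_cast
        rw [ZMod.natCast_zmod_val]
        field_simp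
        ring
      exact_mod_cast this
    obtain ⟨b', w', c, d, h1, h2, h3⟩ :=
      stepV (457 ^ (n + 2)) S T a τ b w ω h hS hT hbw hw k
    refine ⟨b', w', h1, ?_⟩
    obtain ⟨e, he⟩ := hk
    rw [h3, he]
    exact ⟨e + 457 ^ (n + 1) * d, by ring⟩

end Pool.Agent.R471.Elated
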