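import Mathlib
/-!
Certificates for: every irrational `α` has a multiple `m α`, `1 ≤ m ≤ M`, whose decimal expansion contains
the digit `d` infinitely often.
-/
set_option autoImplicit false
open Filter

namespace Pool.Agent.R471.MC

/-- the `n`-th decimal digit of `y` after the point (`n ≥ 1`) -/
noncomputable def digit (y : ℝ) (n : ℕ) : ℤ := ⌊y * 10 ^ n⌋ % 10

/-- a piece: the open interval `(p / q, p' / q')`, its rank `r`, and its successor (digit `c`, piece `j`) -/
structure Piece where
  p : ℕ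
  q : ℕ
  p' : ℕ
  q' : ℕ
  r : ℕ
  c : ℕ
  j : ℕ
deriving Inhabited

def feas (g : Piece) (c : ℕ) (h : Piece) : Bool :=
  Nat.blt (10 * g.p * h.q') ((c * h.q' + h.p') * g.q) && Nat.blt ((c * h.q + h.p) * g.q') (10 * g.p' * h.q)

def G (l : List Piece) (i : ℕ) : Piece := l.getD i default

def trans (l : List Piece) : Bool :=
  (List.range l.length).all fun i => (List.range 10).all fun c => (List.range l.length).all fun j =>
    !(feas (G l i) c (G l j)) || (Nat.blt (G l j).r (G l i).r ||
      (((G l j).r == (G l i).r) && (c == (G l i).c) && (j == (G l i).j)))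

def pos (l : List Piece) : Bool := l.all fun g => Nat.blt 0 g.q && Nat.blt 0 g.q'

/-- the list of break points `(p, q, m, i)`: to the right of `p / q` there is a piece on which the
multiplier `m` gives the digit `d` (if `m ≠ 0`), or which lies inside the piece `i` (if `m = 0`) -/
def cov (d M : ℕ) (l : List Piece) : List (ℕ × ℕ × ℕ × ℕ) → Bool
  | [] => false
  | [a] => Nat.blt 0 a.2.1 && (a.1 == a.2.1)
  | a :: b :: t => Nat.blt 0 a.2.1 && Nat.blt 0 b.2.1 &&
      (if a.2.2.1 == 0 then Nat.blt a.2.2.2 l.length && Nat.ble ((G l a.2.2.2).p * a.2.1) (a.1 * (G l a.2.2.2).q) &&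
          Nat.ble (b.1 * (G l a.2.2.2).q') ((G l a.2.2.2).p' * b.2.1)
        else Nat.ble a.2.2.1 M && (10 * a.2.2.1 * a.1 / a.2.1 % 10 == d) &&
          Nat.ble (10 * a.2.2.1 * b.1) ((10 * a.2.2.1 * a.1 / a.2.1 + 1) * b.2.1)) && cov d M l (b :: t)

lemma cov_spec (d M : ℕ) (l : List Piece) (hp : pos l = true) (L : List (ℕ × ℕ × ℕ × ℕ)) :
    ∀ a t, L = a :: t → cov d M l L = true → ∀ x : ℝ, Irrational x → (a.1 : ℝ) / a.2.1 < x → x < 1 →
      (∃ i, i < l.length ∧ ((G l i).p : ℝ) / (G l i).q < x ∧ x < ((G l i).p' : ℝ) / (G l i).q') ∨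
      ∃ m : ℕ, 1 ≤ m ∧ m ≤ M ∧ ⌊10 * m * x⌋ % 10 = (d : ℤ) := by
  induction L with
  | nil => intro a t h; simp at h
  | cons a0 t0 ih =>
    intro a t h hc x hx h1 h2
    obtain ⟨rfl, rfl⟩ := List.cons.inj h
    cases t0 with
    | nil =>
      simp only [cov, Bool.and_eq_true, Nat.blt_eq, beq_iff_eq] at hc
      rw [hc.2, div_self (by have := hc.1; positivity)] at h1
      linarith
    | cons b t =>
      simp only [cov, Bool.and_eq_true, Nat.blt_eq] at hc
      obtain ⟨⟨⟨ha, hb⟩, hc1⟩, hc2⟩ := hc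
      have haR : (0 : ℝ) < a0.2.1 := by exact_mod_cast ha
      have hbR : (0 : ℝ) < b.2.1 := by exact_mod_cast hb
      rcases lt_trichotomy x ((b.1 : ℝ) / b.2.1) with hlt | heq | hgt
      · split_ifs at hc1 with h0
        · left
          simp only [Bool.and_eq_true, Nat.blt_eq, Nat.ble_eq] at hc1
          obtain ⟨⟨hi, hc3⟩, hc4⟩ := hc1
          have hmem : G l a0.2.2.2 ∈ l := by
            unfold G
            rw [List.getD_eq_getElem _ _ hi]
            exact List.getElem_mem hi
          have hq := List.all_eq_true.1 hp _ hmem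
          simp only [Bool.and_eq_true, Nat.blt_eq] at hq
          have hq1 : (0 : ℝ) < (G l a0.2.2.2).q := by exact_mod_cast hq.1
          have hq2 : (0 : ℝ) < (G l a0.2.2.2).q' := by exact_mod_cast hq.2
          refine ⟨a0.2.2.2, hi, lt_of_le_of_lt ?_ h1, lt_of_lt_of_le hlt ?_⟩
          · rw [div_le_div_iff₀ hq1 haR]
            exact_mod_cast hc3
          · rw [div_le_div_iff₀ hbR hq2]
            exact_mod_cast hc4
        · right
          simp only [Bool.and_eq_true, Nat.ble_eq, beq_iff_eq] at hc1 h0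
          obtain ⟨⟨hm, hd⟩, hc4⟩ := hc1
          refine ⟨a0.2.2.1, Nat.one_le_iff_ne_zero.2 h0, hm, ?_⟩
          set m := a0.2.2.1
          set k := 10 * m * a0.1 / a0.2.1 with hk
          have hmR : (0 : ℝ) < m := by exact_mod_cast Nat.pos_of_ne_zero h0
          have hfl : ⌊10 * (m : ℝ) * x⌋ = (k : ℤ) := by
            rw [Int.floor_eq_iff]
            constructor
            · have h3 : (k : ℝ) * a0.2.1 ≤ 10 * m * a0.1 := by
                exact_mod_cast Nat.div_mul_le_self _ _
              have h4 : (a0.1 : ℝ) < x * a0.2.1 := (div_lt_iff₀ haR).1 h1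
              have h5 : (k : ℝ) * a0.2.1 < (10 * m * x) * a0.2.1 := by nlinarith
              push_cast
              exact le_of_lt (lt_of_mul_lt_mul_right h5 haR.le)
            · have h3 : (10 * m * b.1 : ℝ) ≤ (k + 1) * b.2.1 := by exact_mod_cast hc4
              have h4 : x * b.2.1 < b.1 := (lt_div_iff₀ hbR).1 hlt
              have h5 : (10 * m * x) * b.2.1 < ((k : ℝ) + 1) * b.2.1 := by nlinarith
              push_cast
              exact lt_of_mul_lt_mul_right h5 hbR.le
          rw [hfl]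
          exact_mod_cast hd
      · exfalso
        apply hx.ne_rat ((b.1 : ℚ) / b.2.1)
        rw [heq]
        push_cast
        rfl
      · exact ih b t rfl hc2 x hx hgt h2

theorem main (d M : ℕ) (l : List Piece) (L : List (ℕ × ℕ × ℕ × ℕ)) (hp : pos l = true) (ht : trans l = true)
    (h0 : (L.head?.getD (1, 1, 0, 0)).1 = 0) (hc : cov d M l L = true) (α : ℝ) (hα : Irrational α) :
    ∃ m : ℕ, 1 ≤ m ∧ m ≤ M ∧ {n : ℕ | digit (m * α) n = d}.Infinite := by
  by_contra hcon
  push Not at hcon
  -- from some point on there is no digit `d`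
  have hfin : ∀ m : ℕ, ∃ N : ℕ, 1 ≤ m → m ≤ M → ∀ n, N ≤ n → digit (m * α) n ≠ d := by
    intro m
    by_cases hm : 1 ≤ m ∧ m ≤ M
    · have h := hcon m hm.1 hm.2
      obtain ⟨B, hB⟩ := h.bddAbove
      refine ⟨B + 1, fun _ _ n hn he => ?_⟩
      have := hB (show n ∈ {n : ℕ | digit (m * α) n = d} from he)
      omega
    · exact ⟨0, fun h1 h2 => absurd ⟨h1, h2⟩ hm⟩
  choose Nf hNf using hfin
  set N := (Finset.range (M + 1)).sup Nf with hN
  have hno : ∀ m : ℕ, 1 ≤ m → m ≤ M → ∀ n, N ≤ n → digit (m * α) n ≠ d := by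
    intro m h1 h2 n hn
    exact hNf m h1 h2 n ((Finset.le_sup (f := Nf) (Finset.mem_range.2 (by omega))).trans hn)
  set x : ℕ → ℝ := fun n => Int.fract (10 ^ n * α) with hx
  have hirr : ∀ n, Irrational (x n) := by
    intro n
    have h1 : Irrational (10 ^ n * α) := by
      have : Irrational (((10 ^ n : ℕ) : ℝ) * α) := hα.natCast_mul (by positivity)
      simpa using this
    have h2 : x n = 10 ^ n * α - (⌊10 ^ n * α⌋ : ℤ) := rfl
    rw [h2]
    exact h1.sub_intCast _
  have hx0 : ∀ n, 0 < x n := fun n => lt_of_le_of_ne (Int.fract_nonneg _) (hirr n).ne_zero.symm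
  have hx1 : ∀ n, x n < 1 := fun n => Int.fract_lt_one _
  set c : ℕ → ℤ := fun n => ⌊10 * x n⌋ with hcdef
  have hstep : ∀ n, x (n + 1) = 10 * x n - c n := by
    intro n
    have h1 : (10 : ℝ) ^ (n + 1) * α = 10 * x n + ((10 * ⌊10 ^ n * α⌋ : ℤ) : ℝ) := by
      rw [hx]
      simp only
      push_cast
      rw [pow_succ, Int.fract]
      ring
    have h2 : x (n + 1) = Int.fract (10 * x n) := by
      show Int.fract ((10 : ℝ) ^ (n + 1) * α) = _
      rw [h1, Int.fract_add_intCast]
    rw [h2]
    rfl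
  have hc0 : ∀ n, 0 ≤ c n := fun n => Int.floor_nonneg.2 (by have := hx0 n; positivity)
  have hc9 : ∀ n, c n < 10 := fun n => Int.floor_lt.2 (by have := hx1 n; push_cast; linarith)
  -- pieces
  have hpiece : ∀ n, N ≤ n → ∃ i, i < l.length ∧ ((G l i).p : ℝ) / (G l i).q < x n ∧
      x n < ((G l i).p' : ℝ) / (G l i).q' := by
    intro n hn
    cases L with
    | nil => simp [cov] at hc
    | cons a t =>
      simp only [List.head?_cons, Option.getD_some] at h0
      rcases cov_spec d M l hp (a :: t) a t rfl hc (x n) (hirr n) (by rw [h0]; simpa using hx0 n) (hx1 n) with h | h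
      · exact h
      · exfalso
        obtain ⟨m, hm1, hm2, hm3⟩ := h
        apply hno m hm1 hm2 (n + 1) (by omega)
        unfold digit
        have h1 : (m : ℝ) * α * 10 ^ (n + 1) = 10 * m * x n + ((10 * (m * ⌊10 ^ n * α⌋) : ℤ) : ℝ) := by
          rw [hx]
          simp only
          push_cast
          rw [pow_succ, Int.fract]
          ring
        rw [h1, Int.floor_add_intCast, ← hm3]
        omega
  choose! i hi using hpiece
  have hcn : ∀ n, ((c n).toNat : ℤ) = c n := fun n => Int.toNat_of_nonneg (hc0 n)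
  have hposq : ∀ k, k < l.length → (0 : ℝ) < (G l k).q ∧ (0 : ℝ) < (G l k).q' := by
    intro k hk
    have hmem : G l k ∈ l := by
      unfold G
      rw [List.getD_eq_getElem _ _ hk]
      exact List.getElem_mem hk
    have hq := List.all_eq_true.1 hp _ hmem
    simp only [Bool.and_eq_true, Nat.blt_eq] at hq
    exact ⟨by exact_mod_cast hq.1, by exact_mod_cast hq.2⟩
  have htr : ∀ n, N ≤ n → (G l (i (n + 1))).r < (G l (i n)).r ∨
      ((G l (i (n + 1))).r = (G l (i n)).r ∧ (c n).toNat = (G l (i n)).c ∧ i (n + 1) = (G l (i n)).j) := by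
    intro n hn
    obtain ⟨hi1, hi2, hi3⟩ := hi n hn
    obtain ⟨hj1, hj2, hj3⟩ := hi (n + 1) (by omega)
    obtain ⟨hg1, hg2⟩ := hposq _ hi1
    obtain ⟨hh1, hh2⟩ := hposq _ hj1
    have hcc : ((c n).toNat : ℝ) = (c n : ℝ) := by exact_mod_cast hcn n
    have hf : feas (G l (i n)) (c n).toNat (G l (i (n + 1))) = true := by
      unfold feas
      simp only [Bool.and_eq_true, Nat.blt_eq]
      rw [div_lt_iff₀ hg1] at hi2
      rw [lt_div_iff₀ hg2] at hi3
      rw [div_lt_iff₀ hh1] at hj2
      rw [lt_div_iff₀ hh2] at hj3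
      rw [hstep n, ← hcc] at hj2 hj3
      constructor
      · have : (10 * (G l (i n)).p * (G l (i (n + 1))).q' : ℝ) <
            (((c n).toNat : ℝ) * (G l (i (n + 1))).q' + (G l (i (n + 1))).p') * (G l (i n)).q := by
          have e1 : (10 * (G l (i n)).p * (G l (i (n + 1))).q' : ℝ) <
            10 * (x n * (G l (i n)).q) * (G l (i (n + 1))).q' := by
            have := mul_lt_mul_of_pos_right hi2 hh2
            nlinarith
          have e2 := mul_lt_mul_of_pos_right hj3 hg1
          nlinarith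
        exact_mod_cast this
      · have : (((c n).toNat : ℝ) * (G l (i (n + 1))).q + (G l (i (n + 1))).p) * (G l (i n)).q' <
            (10 * (G l (i n)).p' * (G l (i (n + 1))).q : ℝ) := by
          have e1 : 10 * (x n * (G l (i n)).q') * (G l (i (n + 1))).q <
            (10 * (G l (i n)).p' * (G l (i (n + 1))).q : ℝ) := by
            have := mul_lt_mul_of_pos_right hi3 hh1
            nlinarith
          have e2 := mul_lt_mul_of_pos_right hj2 hg2
          nlinarith
        exact_mod_cast this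
    have h1 := List.all_eq_true.1 ht (i n) (List.mem_range.2 hi1)
    have h2 := List.all_eq_true.1 h1 (c n).toNat (List.mem_range.2 (by have := hc9 n; have := hcn n; omega))
    have h3 := List.all_eq_true.1 h2 (i (n + 1)) (List.mem_range.2 hj1)
    rw [hf] at h3
    simp only [Bool.not_true, Bool.false_or, Bool.or_eq_true, Bool.and_eq_true, beq_iff_eq, Nat.blt_eq] at h3
    rcases h3 with h3 | h3
    · exact Or.inl h3
    · exact Or.inr ⟨h3.1.1, h3.1.2, h3.2⟩
  -- the rank is eventually constant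
  obtain ⟨N', hN', hmin⟩ : ∃ N', N ≤ N' ∧ ∀ n, N ≤ n → (G l (i N')).r ≤ (G l (i n)).r := by
    have hne : {k | ∃ n, N ≤ n ∧ (G l (i n)).r = k}.Nonempty := ⟨_, N, le_rfl, rfl⟩
    obtain ⟨n, hn, he⟩ := Nat.sInf_mem hne
    refine ⟨n, hn, fun n' hn' => ?_⟩
    rw [he]
    exact Nat.sInf_le ⟨n', hn', rfl⟩
  have hconst : ∀ k, (G l (i (N' + k))).r = (G l (i N')).r := by
    intro k
    induction k with
    | zero => rfl
    | succ k ih =>
      have h1 := hmin (N' + (k + 1)) (by omega)
      rcases htr (N' + k) (by omega) with h | h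
      · have h' : (G l (i (N' + (k + 1)))).r < (G l (i (N' + k))).r := h
        omega
      · have h' : (G l (i (N' + (k + 1)))).r = (G l (i (N' + k))).r := h.1
        omega
  have hdet : ∀ n, N' ≤ n → (c n).toNat = (G l (i n)).c ∧ i (n + 1) = (G l (i n)).j := by
    intro n hn
    rcases htr n (by omega) with h | h
    · have h1 := hconst (n - N')
      have h2 := hconst (n + 1 - N')
      rw [show N' + (n - N') = n by omega] at h1
      rw [show N' + (n + 1 - N') = n + 1 by omega] at h2
      omega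
    · exact h.2
  -- pigeonhole
  obtain ⟨a, b, hab, heq⟩ : ∃ a b : ℕ, a < b ∧ i (N' + a) = i (N' + b) := by
    have hmaps : ∀ k : ℕ, i (N' + k) < l.length := fun k => (hi (N' + k) (by omega)).1
    obtain ⟨a, b, hne, he⟩ := Finite.exists_ne_map_eq_of_infinite
      (fun k : ℕ => (⟨i (N' + k), hmaps k⟩ : Fin l.length))
    have he' : i (N' + a) = i (N' + b) := by simpa using he
    rcases lt_or_gt_of_ne hne with h | h
    · exact ⟨a, b, h, he'⟩
    · exact ⟨b, a, h, he'.symm⟩
  have hper : ∀ k, i (N' + a + k) = i (N' + b + k) := by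
    intro k
    induction k with
    | zero => exact heq
    | succ k ih =>
      have h1 := (hdet (N' + a + k) (by omega)).2
      have h2 := (hdet (N' + b + k) (by omega)).2
      rw [show N' + a + (k + 1) = N' + a + k + 1 by ring, show N' + b + (k + 1) = N' + b + k + 1 by ring, h1, h2, ih]
  have hcper : ∀ k, c (N' + a + k) = c (N' + b + k) := by
    intro k
    have h1 := (hdet (N' + a + k) (by omega)).1
    have h2 := (hdet (N' + b + k) (by omega)).1
    have e1 := hcn (N' + a + k)
    have e2 := hcn (N' + b + k)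
    rw [hper k] at h1
    omega
  -- hence `x (N' + a) = x (N' + b)`
  have hdiff : ∀ k, x (N' + a + k) - x (N' + b + k) = 10 ^ k * (x (N' + a) - x (N' + b)) := by
    intro k
    induction k with
    | zero => simp
    | succ k ih =>
      have h1 : x (N' + a + (k + 1)) = 10 * x (N' + a + k) - c (N' + a + k) := hstep _
      have h2 : x (N' + b + (k + 1)) = 10 * x (N' + b + k) - c (N' + b + k) := hstep _
      rw [h1, h2, hcper k, pow_succ]
      have : (10 : ℝ) * x (N' + a + k) - c (N' + b + k) - (10 * x (N' + b + k) - c (N' + b + k)) =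
        10 * (x (N' + a + k) - x (N' + b + k)) := by ring
      rw [this, ih]
      ring
  have hxeq : x (N' + a) = x (N' + b) := by
    by_contra hne
    have hpos : 0 < |x (N' + a) - x (N' + b)| := abs_pos.2 (sub_ne_zero.2 hne)
    obtain ⟨k, hk⟩ := pow_unbounded_of_one_lt (1 / |x (N' + a) - x (N' + b)|) (by norm_num : (1 : ℝ) < 10)
    rw [div_lt_iff₀ hpos] at hk
    have h1 := congrArg abs (hdiff k)
    rw [abs_mul, abs_of_pos (by positivity : (0 : ℝ) < 10 ^ k)] at h1
    rw [← h1] at hk
    have h2 : |x (N' + a + k) - x (N' + b + k)| < 1 := by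
      rw [abs_lt]
      constructor <;> linarith [hx0 (N' + a + k), hx1 (N' + a + k), hx0 (N' + b + k), hx1 (N' + b + k)]
    linarith
  -- rationality
  apply hα
  have h1 : (10 : ℝ) ^ (N' + a) * α - ⌊(10 : ℝ) ^ (N' + a) * α⌋ = 10 ^ (N' + b) * α - ⌊(10 : ℝ) ^ (N' + b) * α⌋ := hxeq
  have h2 : ((10 : ℝ) ^ (N' + b) - 10 ^ (N' + a)) * α =
      ((⌊(10 : ℝ) ^ (N' + b) * α⌋ - ⌊(10 : ℝ) ^ (N' + a) * α⌋ : ℤ) : ℝ) := by
    push_cast
    linarith
  have h3 : (10 : ℝ) ^ (N' + a) < 10 ^ (N' + b) := pow_lt_pow_right₀ (by norm_num) (by omega)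
  refine ⟨((⌊(10 : ℝ) ^ (N' + b) * α⌋ - ⌊(10 : ℝ) ^ (N' + a) * α⌋ : ℤ) : ℚ) /
    ((10 : ℚ) ^ (N' + b) - 10 ^ (N' + a)), ?_⟩
  push_cast
  rw [div_eq_iff (by linarith)]
  push_cast at h2
  linarith

end Pool.Agent.R471.MC
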