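import Pool.Agent.R471.MahlerData
/-!
Numbers `α` for which no small multiple `m α` contains the digit `d` infinitely often.
-/
set_option autoImplicit false
open Nat

namespace Pool.Agent.R471.MC

lemma digit_liou (W : ℕ) (hW : W < 10 ^ 4) (n : ℕ) (hn : 2 ≤ n) :
    ∃ e : ℕ, ⌊(W : ℝ) * liouvilleNumber 10 * 10 ^ n⌋ % 10 = ((W / 10 ^ e % 10 : ℕ) : ℤ) := by
  -- choose `j` with `j! ≤ n < (j + 1)!`
  obtain ⟨j, hj2, hj, hj'⟩ : ∃ j, 2 ≤ j ∧ j ! ≤ n ∧ n < (j + 1)! := by
    have hex : ∃ k, n < (k + 1)! := ⟨n, (Nat.lt_succ_self n).trans_le (Nat.self_le_factorial _)⟩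
    classical
    refine ⟨Nat.find hex, ?_, ?_, Nat.find_spec hex⟩
    · rw [Nat.le_find_iff]
      intro k hk
      interval_cases k <;> simp [Nat.factorial] <;> omega
    · rcases Nat.eq_zero_or_pos (Nat.find hex) with h | h
      · rw [h]; simp; omega
      · have := Nat.find_min hex (Nat.sub_lt h one_pos)
        rw [Nat.sub_add_cancel (show 1 ≤ Nat.find hex from h)] at this
        omega
  set K := (j + 1)! - n with hK
  have hK1 : 1 ≤ K := by omega
  set S : ℕ := ∑ i ∈ Finset.range (j + 1), 10 ^ (n - i !) with hS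
  have hfac : ∀ i ∈ Finset.range (j + 1), i ! ≤ n := fun i hi =>
    (Nat.factorial_le (Nat.lt_succ_iff.1 (Finset.mem_range.1 hi))).trans hj
  have hpart : LiouvilleNumber.partialSum 10 j * 10 ^ n = (S : ℝ) := by
    rw [LiouvilleNumber.partialSum, Finset.sum_mul, hS]
    push_cast
    refine Finset.sum_congr rfl fun i hi => ?_
    rw [pow_sub₀ (10 : ℝ) (by norm_num) (hfac i hi)]
    ring
  have hsum : liouvilleNumber (10 : ℝ) = LiouvilleNumber.partialSum 10 j + 1 / 10 ^ (j + 1)! +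
      LiouvilleNumber.remainder 10 (j + 1) := by
    rw [← LiouvilleNumber.partialSum_add_remainder (by norm_num : (1 : ℝ) < 10) (j + 1),
      LiouvilleNumber.partialSum_succ]
  set ε : ℝ := W * LiouvilleNumber.remainder 10 (j + 1) * 10 ^ n with hε
  have hε0 : 0 ≤ ε := by
    have := LiouvilleNumber.remainder_pos (by norm_num : (1 : ℝ) < 10) (j + 1)
    positivity
  have hε1 : ε < 1 / 10 ^ K := by
    have h1 := LiouvilleNumber.remainder_lt' (j + 1) (by norm_num : (1 : ℝ) < 10)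
    have h2 : LiouvilleNumber.remainder 10 (j + 1) ≤ 2 / 10 ^ (j + 2)! := by
      refine h1.le.trans ?_
      rw [show j + 1 + 1 = j + 2 by ring, ← mul_one_div (2 : ℝ)]
      gcongr
      norm_num
    have h3 : (j + 2)! = (j + 1)! + (j + 1) * (j + 1)! := by
      rw [show j + 2 = (j + 1) + 1 by ring, Nat.factorial_succ (j + 1)]
      ring
    have h4 : 5 ≤ (j + 1) * (j + 1)! := by
      have : 2 ! ≤ (j + 1)! := Nat.factorial_le (by omega)
      have h5 : 2 ≤ (j + 1)! := this
      nlinarith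
    have hWR : (W : ℝ) < 10 ^ 4 := by exact_mod_cast hW
    have h6 : ε ≤ W * (2 / 10 ^ (j + 2)!) * 10 ^ n := by
      rw [hε]
      gcongr
    refine h6.trans_lt ?_
    rw [lt_div_iff₀ (by positivity)]
    have h7 : (W : ℝ) * (2 / 10 ^ (j + 2)!) * 10 ^ n * 10 ^ K = W * 2 / 10 ^ ((j + 1) * (j + 1)!) := by
      have h8 : (10 : ℝ) ^ n * 10 ^ K = 10 ^ (j + 1)! := by
        rw [← pow_add]
        congr 1
        omega
      rw [h3, pow_add, mul_assoc, h8]
      field_simp
    rw [h7, div_lt_one (by positivity)]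
    calc (W : ℝ) * 2 < 10 ^ 4 * 10 := by nlinarith
      _ = 10 ^ 5 := by norm_num
      _ ≤ 10 ^ ((j + 1) * (j + 1)!) := pow_le_pow_right₀ (by norm_num) h4
  have hdecomp : (W : ℝ) * liouvilleNumber 10 * 10 ^ n = (W * S : ℕ) + (W / 10 ^ K + ε) := by
    rw [hsum, hε]
    push_cast
    rw [← hpart]
    have h9 : (1 : ℝ) / 10 ^ (j + 1)! * 10 ^ n = 1 / 10 ^ K := by
      rw [div_mul_eq_mul_div, one_mul, div_eq_div_iff (by positivity) (by positivity), one_mul, ← pow_add]
      congr 1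
      omega
    have h10 : (W : ℝ) / 10 ^ K = W * (1 / 10 ^ (j + 1)! * 10 ^ n) := by
      rw [h9]; ring
    rw [h10]
    ring
  have hfloor : ⌊(W : ℝ) / 10 ^ K + ε⌋ = ((W / 10 ^ K : ℕ) : ℤ) := by
    rw [Int.floor_eq_iff]
    have hp : (0 : ℝ) < 10 ^ K := by positivity
    constructor
    · have h1 : ((W / 10 ^ K : ℕ) : ℝ) ≤ (W : ℝ) / ((10 ^ K : ℕ) : ℝ) := Nat.cast_div_le
      rw [Int.cast_natCast]
      push_cast at h1
      push_cast
      linarith
    · have h1 : W + 1 ≤ (W / 10 ^ K + 1) * 10 ^ K := by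
        have := Nat.lt_div_mul_add (a := W) (b := 10 ^ K) (by positivity)
        nlinarith
      have h2 : ((W : ℝ) + 1) ≤ ((W / 10 ^ K : ℕ) + 1) * 10 ^ K := by exact_mod_cast h1
      have h3 : (W : ℝ) / 10 ^ K + 1 / 10 ^ K ≤ ((W / 10 ^ K : ℕ) : ℝ) + 1 := by
        rw [← add_div, div_le_iff₀ hp]
        exact h2
      rw [Int.cast_natCast]
      linarith
  have hmod : S % 10 = if n = j ! then 1 else 0 := by
    rw [hS, Finset.sum_range_succ, Nat.add_mod]
    have h0 : (∑ i ∈ Finset.range j, 10 ^ (n - i !)) % 10 = 0 := by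
      apply Nat.mod_eq_zero_of_dvd
      refine Finset.dvd_sum fun i hi => ?_
      have hlt : i ! < n := by
        have hi' := Finset.mem_range.1 hi
        rcases Nat.eq_zero_or_pos i with h | h
        · rw [h]; simp; omega
        · exact ((Nat.factorial_lt h).2 hi').trans_le hj
      exact dvd_pow_self 10 (by omega)
    rw [h0]
    split_ifs with h
    · rw [h]; simp
    · have : 10 ∣ 10 ^ (n - j !) := dvd_pow_self 10 (by omega)
      omega
  rw [hdecomp, show (((W * S : ℕ) : ℝ)) = (((W * S : ℕ) : ℤ) : ℝ) by push_cast; ring,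
    Int.floor_intCast_add, hfloor]
  by_cases hnj : n = Nat.factorial j
  · refine ⟨0, ?_⟩
    have hK4 : 4 ≤ K := by
      have h1 : (j + 1)! = (j + 1) * j ! := Nat.factorial_succ j
      have h2 : 2 ! ≤ j ! := Nat.factorial_le hj2
      have h3 : 2 ≤ j ! := h2
      have h4 : 2 * 2 ≤ j * j ! := Nat.mul_le_mul hj2 h3
      have h5 : (j + 1) * j ! = j * j ! + j ! := by ring
      omega
    have hdiv : W / 10 ^ K = 0 := Nat.div_eq_of_lt (hW.trans_le (Nat.pow_le_pow_right (by norm_num) hK4))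
    rw [hdiv, if_pos hnj] at *
    have : (W * S) % 10 = W % 10 := by rw [Nat.mul_mod, hmod]; simp
    simp only [pow_zero, Nat.div_one]
    omega
  · refine ⟨K, ?_⟩
    rw [if_neg hnj] at hmod
    have : (W * S) % 10 = 0 := by rw [Nat.mul_mod, hmod]; simp
    omega

/-- all multiples `m w`, `1 ≤ m < M`, avoid the digit `d` -/
def avoids (w M d : ℕ) : Bool :=
  (List.range M).all fun m => (List.range 4).all fun e => m == 0 || !(m * w / 10 ^ e % 10 == d)

lemma irr_liou : Irrational (liouvilleNumber 10) := by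
  have := (liouville_liouvilleNumber (m := 10) (by norm_num)).irrational
  simpa using this

lemma pos_liou : 0 < liouvilleNumber (10 : ℝ) := by
  rw [← LiouvilleNumber.partialSum_add_remainder (by norm_num : (1 : ℝ) < 10) 0]
  have := LiouvilleNumber.remainder_pos (by norm_num : (1 : ℝ) < 10) 0
  have h : 0 ≤ LiouvilleNumber.partialSum 10 0 := by
    rw [LiouvilleNumber.partialSum]
    exact Finset.sum_nonneg fun i _ => by positivity
  linarith

lemma liou_lt : liouvilleNumber (10 : ℝ) < 1 := by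
  have h0 := LiouvilleNumber.partialSum_add_remainder (by norm_num : (1 : ℝ) < 10) 0
  have h1 := LiouvilleNumber.remainder_lt' 0 (by norm_num : (1 : ℝ) < 10)
  have h2 : LiouvilleNumber.partialSum 10 0 = 1 / 10 := by
    simp [LiouvilleNumber.partialSum]
  norm_num at h1
  linarith

lemma low1 (w M d : ℕ) (hw0 : 0 < w) (hd : d ≠ 0) (hwM : w * M ≤ 10 ^ 4) (h : avoids w M d = true) :
    Irrational (w * liouvilleNumber 10) ∧ ∀ m : ℕ, 1 ≤ m → m < M → ∀ n, 2 ≤ n →
      digit (m * (w * liouvilleNumber 10)) n ≠ (d : ℤ) := by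
  refine ⟨irr_liou.natCast_mul (by omega), fun m h1 h2 n hn he => ?_⟩
  have hW : m * w < 10 ^ 4 := lt_of_lt_of_le (by
    rw [mul_comm]
    exact Nat.mul_lt_mul_of_pos_left h2 hw0) hwM
  obtain ⟨e, hee⟩ := digit_liou (m * w) hW n hn
  unfold digit at he
  rw [show (m : ℝ) * (w * liouvilleNumber 10) = ((m * w : ℕ) : ℝ) * liouvilleNumber 10 by push_cast; ring, hee] at he
  have he' : m * w / 10 ^ e % 10 = d := by exact_mod_cast he
  by_cases h4 : e < 4
  · have h5 := List.all_eq_true.1 h m (List.mem_range.2 h2)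
    have h6 := List.all_eq_true.1 h5 e (List.mem_range.2 h4)
    simp only [Bool.or_eq_true, beq_iff_eq, Bool.not_eq_true', beq_eq_false_iff_ne, ne_eq] at h6
    rcases h6 with h6 | h6
    · omega
    · exact h6 he'
  · have h7 : m * w / 10 ^ e = 0 := Nat.div_eq_of_lt (hW.trans_le (Nat.pow_le_pow_right (by norm_num) (by omega)))
    rw [h7] at he'
    exact hd he'.symm

/-- the complement `100 - w L` -/
lemma low2 (w M d d' : ℕ) (hw0 : 0 < w) (hd : d ≠ 0) (hwM : w * M ≤ 10 ^ 4) (h : avoids w M d = true)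
    (hdd : d + d' = 9) :
    Irrational (10000 - w * liouvilleNumber 10) ∧ ∀ m : ℕ, 1 ≤ m → m < M → ∀ n, 2 ≤ n →
      digit (m * (10000 - w * liouvilleNumber 10)) n ≠ (d' : ℤ) := by
  obtain ⟨hirr, hl⟩ := low1 w M d hw0 hd hwM h
  refine ⟨by simpa using hirr.natCast_sub 10000, fun m h1 h2 n hn he => ?_⟩
  apply hl m h1 h2 n hn
  unfold digit at he ⊢
  have hirr2 : Irrational ((m : ℝ) * (w * liouvilleNumber 10) * 10 ^ n) := by
    have := (hirr.natCast_mul (m := m) (by omega)).mul_natCast (m := 10 ^ n) (by positivity)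
    simpa using this
  set y := (m : ℝ) * (w * liouvilleNumber 10) * 10 ^ n with hy
  have e1 : (m : ℝ) * (10000 - w * liouvilleNumber 10) * 10 ^ n = ((m * 10000 * 10 ^ n : ℤ) : ℝ) + (-y) := by
    rw [hy]; push_cast; ring
  rw [e1, Int.floor_intCast_add] at he
  have e2 : ⌊-y⌋ = -⌊y⌋ - 1 := by
    rw [Int.floor_eq_iff]
    push_cast
    have h3 : (⌊y⌋ : ℝ) < y := lt_of_le_of_ne (Int.floor_le y) (fun h => hirr2 ⟨⌊y⌋, by exact_mod_cast h⟩)
    have h4 := Int.lt_floor_add_one y
    constructor <;> linarith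
  rw [e2] at he
  have e3 : (m * 10000 * 10 ^ n : ℤ) % 10 = 0 := by
    apply Int.emod_eq_zero_of_dvd
    exact Dvd.dvd.mul_right (Dvd.dvd.mul_left (by norm_num) _) _
  omega

end Pool.Agent.R471.MC
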