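import Pool.Agent.R471.MahlerWord
import Pool.Agent.TH419.FS.Rid
/-!
Words of digits in the shifted multiples `x + m α`, `1 ≤ m ≤ b ^ (k + 1) - b + 1`: at infinitely many places `n`, which do
not depend on `x`, every word of `k` digits stands at the place `n` of some of these numbers; for algebraic `α` there is
such a place in every interval `[n, (1 + ε) n]`.
-/
set_option autoImplicit false
open Filter

namespace Pool.Agent.R471.MS

open Pool.Agent.R471.MW (den_mul_le pick)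

/-- rational approximations of the right quality, with a bound for the time -/
lemma stepA {b N : ℕ} (hb : 2 ≤ b) (hN : 1 ≤ N) {x : ℝ} (hx : Irrational x) :
    ∃ (t : ℕ) (s : ℚ), s.den ≤ N ∧ (N : ℝ) * (s.den * |(b : ℝ) ^ t * x - s|) < 1 ∧
      1 ≤ (b : ℝ) * (N * (s.den * |(b : ℝ) ^ t * x - s|)) ∧
      ∃ r : ℚ, r.den ≤ N ∧ (b : ℝ) ^ t * |x - r| < 1 := by
  obtain ⟨r, hr1, hr2⟩ := Real.exists_rat_abs_sub_le_and_den_le x (n := N) (by omega)
  have hNR : (1 : ℝ) ≤ N := by exact_mod_cast hN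
  have hbR : (2 : ℝ) ≤ b := by exact_mod_cast hb
  set D : ℝ := |x - r| with hD
  have hD0 : 0 < D := abs_pos.2 (sub_ne_zero.2 (hx.ne_rat r))
  set e : ℕ → ℝ := fun t => (N : ℝ) * ((((b : ℚ) ^ t * r).den : ℝ) * ((b : ℝ) ^ t * D)) with he
  have hden : ∀ t : ℕ, ((b : ℚ) ^ t * r).den ≤ N := by
    intro t
    induction t with
    | zero => simpa using hr2
    | succ t ih =>
      refine le_trans ?_ ih
      have h := den_mul_le b ((b : ℚ) ^ t * r)
      rw [pow_succ', mul_assoc]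
      exact h
  have hstep : ∀ t, e (t + 1) ≤ b * e t := by
    intro t
    have h : (((b : ℚ) ^ (t + 1) * r).den : ℝ) ≤ (((b : ℚ) ^ t * r).den : ℝ) := by
      have h := den_mul_le b ((b : ℚ) ^ t * r)
      rw [pow_succ', mul_assoc]
      exact_mod_cast h
    simp only [he]
    calc (N : ℝ) * ((((b : ℚ) ^ (t + 1) * r).den : ℝ) * ((b : ℝ) ^ (t + 1) * D))
        ≤ (N : ℝ) * ((((b : ℚ) ^ t * r).den : ℝ) * ((b : ℝ) ^ (t + 1) * D)) := by gcongr
      _ = _ := by ring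
  have h0 : e 0 < 1 := by
    simp only [he, pow_zero, one_mul]
    have hden0 : (0 : ℝ) < r.den := by exact_mod_cast r.den_pos
    rw [le_div_iff₀ (by positivity)] at hr1
    have : (N : ℝ) * (r.den * D) < D * ((N + 1) * r.den) := by nlinarith
    linarith
  have hlarge : ∃ t, 1 ≤ e t := by
    obtain ⟨t, ht⟩ := pow_unbounded_of_one_lt (1 / D) (by linarith : (1 : ℝ) < b)
    refine ⟨t, ?_⟩
    rw [div_lt_iff₀ hD0] at ht
    simp only [he]
    have h1 : (1 : ℝ) ≤ (((b : ℚ) ^ t * r).den : ℝ) := by exact_mod_cast ((b : ℚ) ^ t * r).den_pos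
    have h2 : 1 ≤ (((b : ℚ) ^ t * r).den : ℝ) * ((b : ℝ) ^ t * D) := by nlinarith
    nlinarith
  classical
  obtain ⟨t, ht1, ht2⟩ : ∃ t, e t < 1 ∧ 1 ≤ e (t + 1) := by
    have hf := Nat.find_spec hlarge
    have hpos : Nat.find hlarge ≠ 0 := by
      intro h
      rw [h] at hf
      linarith
    obtain ⟨t, ht⟩ := Nat.exists_eq_succ_of_ne_zero hpos
    refine ⟨t, ?_, ?_⟩
    · have := Nat.find_min hlarge (m := t) (by omega)
      exact not_le.1 this
    · rw [ht] at hf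
      exact hf
  have habs : |(b : ℝ) ^ t * x - (((b : ℚ) ^ t * r : ℚ) : ℝ)| = (b : ℝ) ^ t * D := by
    push_cast
    rw [← mul_sub, abs_mul, abs_of_nonneg (by positivity)]
  refine ⟨t, (b : ℚ) ^ t * r, hden t, ?_, ?_, r, hr2, ?_⟩
  · rw [habs]; exact ht1
  · rw [habs]; exact ht2.trans (hstep t)
  · have h1 : (1 : ℝ) ≤ (((b : ℚ) ^ t * r).den : ℝ) := by exact_mod_cast ((b : ℚ) ^ t * r).den_pos
    have h2 : 0 ≤ (b : ℝ) ^ t * D := by positivity
    have h3 : (b : ℝ) ^ t * D ≤ (((b : ℚ) ^ t * r).den : ℝ) * ((b : ℝ) ^ t * D) := by nlinarith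
    have h4 : (((b : ℚ) ^ t * r).den : ℝ) * ((b : ℝ) ^ t * D) ≤
        (N : ℝ) * ((((b : ℚ) ^ t * r).den : ℝ) * ((b : ℝ) ^ t * D)) := by
      have : 0 ≤ (((b : ℚ) ^ t * r).den : ℝ) * ((b : ℝ) ^ t * D) := by positivity
      nlinarith
    exact (h3.trans h4).trans_lt ht1

/-- an integer in a half-open interval of length `q` with a prescribed residue class -/
lemma pick' {p : ℤ} {q : ℕ} (hq : 1 ≤ q) (hpq : IsCoprime p (q : ℤ)) (A : ℤ) (u : ℝ) :
    ∃ m z : ℤ, u ≤ m ∧ (m : ℝ) < u + q ∧ m * p = A + z * q := by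
  obtain ⟨a, c, hac⟩ := hpq
  have hq0 : (0 : ℝ) < q := by exact_mod_cast hq
  set f : ℤ := ⌈(u - (A * a : ℤ)) / q⌉ with hf
  refine ⟨A * a + q * f, -(A * c) + f * p, ?_, ?_, ?_⟩
  · have h := Int.le_ceil ((u - (A * a : ℤ)) / q)
    rw [← hf, div_le_iff₀ hq0] at h
    push_cast at h ⊢
    linarith
  · have h := Int.ceil_lt_add_one ((u - (A * a : ℤ)) / q)
    rw [← hf] at h
    have h2 : (f : ℝ) * q < ((u - (A * a : ℤ)) / q + 1) * q := mul_lt_mul_of_pos_right h hq0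
    rw [add_mul, div_mul_cancel₀ _ hq0.ne'] at h2
    push_cast at h2 ⊢
    linarith
  · linear_combination A * hac

/-- the multiples of a number with a good rational approximation are dense of order `1 / N` -/
lemma stepB {b N : ℕ} (hb : 2 ≤ b) (hN : 1 ≤ N) {y : ℝ} (hy : Irrational y) {s : ℚ} (hs : s.den ≤ N)
    (h1 : (N : ℝ) * (s.den * |y - s|) < 1) (h2 : 1 ≤ (b : ℝ) * (N * (s.den * |y - s|))) (v : ℝ) :
    ∃ m : ℕ, 1 ≤ m ∧ m ≤ b * N - b + 1 ∧ ∃ z : ℤ, v ≤ N * (m * y - z) ∧ N * (m * y - z) < v + 1 := by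
  have hNR : (1 : ℝ) ≤ N := by exact_mod_cast hN
  have hN0 : (0 : ℝ) < N := by linarith
  have hbR : (2 : ℝ) ≤ b := by exact_mod_cast hb
  obtain ⟨q, hq⟩ : ∃ q, q = s.den := ⟨_, rfl⟩
  obtain ⟨p, hp⟩ : ∃ p, p = s.num := ⟨_, rfl⟩
  have hq1 : 1 ≤ q := by rw [hq]; exact s.den_pos
  have hqR : (1 : ℝ) ≤ q := by exact_mod_cast hq1
  have hq0 : (0 : ℝ) < q := by linarith
  have hqN : (q : ℝ) ≤ N := by rw [hq]; exact_mod_cast hs
  have hpq : IsCoprime p (q : ℤ) := by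
    rw [hq, hp, Int.isCoprime_iff_gcd_eq_one, Int.gcd]
    simpa using s.reduced
  have hsR : (s : ℝ) = p / q := by
    rw [hp, hq]
    exact_mod_cast (Rat.num_div_den s).symm
  -- `δ = q y - p`
  obtain ⟨δ, hδ⟩ : ∃ δ : ℝ, δ = q * y - p := ⟨_, rfl⟩
  have hqs : (q : ℝ) * (y - s) = δ := by
    rw [hsR, hδ]; field_simp
  have habs : (s.den : ℝ) * |y - s| = |δ| := by
    rw [← hq, ← hqs, abs_mul, abs_of_pos hq0]
  rw [habs] at h1 h2
  have hirr : ∀ c : ℚ, δ ≠ c := by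
    intro c hc
    apply hy.ne_rat ((c + p) / q)
    push_cast
    rw [← hc, hδ]
    field_simp
    ring
  have hmy : ∀ m : ℤ, ∀ A z : ℤ, m * p = A + z * q → (m : ℝ) * y - z = (A + m * δ) / q := by
    intro m A z h
    have h' : (m : ℝ) * p = A + z * q := by exact_mod_cast h
    rw [hδ]
    field_simp
    linarith
  have hcast : ((b * N - b + 1 : ℕ) : ℝ) = b * N - b + 1 := by
    have : b ≤ b * N := Nat.le_mul_of_pos_right b (by omega)
    push_cast [Nat.cast_sub this]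
    ring
  have hqle : (q : ℝ) < b * N - b + 2 := by nlinarith
  -- finish from an integer `m`
  have fin : ∀ m z : ℤ, 0 < m → (m : ℝ) < b * N - b + 2 → v ≤ N * (m * y - z) → N * (m * y - z) < v + 1 →
      ∃ m : ℕ, 1 ≤ m ∧ m ≤ b * N - b + 1 ∧ ∃ z : ℤ, v ≤ N * (m * y - z) ∧ N * (m * y - z) < v + 1 := by
    intro m z hm0 hm1 h3 h4
    obtain ⟨k, rfl⟩ := Int.eq_ofNat_of_zero_le hm0.le
    rw [Int.cast_natCast] at hm1 h3 h4
    refine ⟨k, by omega, ?_, z, h3, h4⟩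
    have h5 : (k : ℝ) < ((b * N - b + 1 : ℕ) : ℝ) + 1 := by rw [hcast]; linarith
    have h6 : k < b * N - b + 1 + 1 := by exact_mod_cast h5
    omega
  set θ : ℝ := q * v / N with hθ
  set w : ℝ := q / N with hw
  have hNθ : (N : ℝ) * θ = q * v := by rw [hθ]; field_simp
  have hNw : (N : ℝ) * w = q := by rw [hw]; field_simp
  have hw0 : 0 < w := by positivity
  have hw1 : 0 ≤ 1 - w := by
    rw [sub_nonneg, hw, div_le_one hN0]
    exact hqN
  have key : ∀ m A z : ℤ, m * p = A + z * q → θ ≤ A + m * δ → A + m * δ < θ + w →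
      v ≤ N * (m * y - z) ∧ N * (m * y - z) < v + 1 := by
    intro m A z h h3 h4
    rw [hmy m A z h]
    constructor
    · rw [mul_div_assoc', le_div_iff₀ hq0]
      nlinarith
    · rw [mul_div_assoc', div_lt_iff₀ hq0]
      nlinarith
  rcases lt_trichotomy δ 0 with hneg | hzero | hpos
  · -- `δ < 0`
    obtain ⟨η, hη⟩ : ∃ η, η = -δ := ⟨_, rfl⟩
    have hη0 : 0 < η := by linarith
    have habsη : |δ| = η := by rw [abs_of_neg hneg, hη]
    rw [habsη] at h1 h2
    have hδη : δ = -η := by linarith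
    set A1 : ℤ := ⌈θ + w⌉ with hA1
    have hA1a : θ + w ≤ A1 := Int.le_ceil _
    have hA1b : (A1 : ℝ) < θ + w + 1 := Int.ceil_lt_add_one _
    have hqη : q * η < w := by
      rw [hw, lt_div_iff₀ hN0]
      nlinarith
    by_cases hc : q * η ≤ (A1 - θ - w) + w - 1
    · obtain ⟨m, z, hm1, hm2, hm3⟩ := pick hq1 hpq (A1 - 1) 0
      have hm0 : 0 < m := by exact_mod_cast hm1
      obtain ⟨h3, h4⟩ := key m (A1 - 1) z hm3 (by
        push_cast
        rw [hδη]
        have : (m : ℝ) * η ≤ q * η := by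
          apply mul_le_mul_of_nonneg_right _ hη0.le
          linarith
        nlinarith) (by
        push_cast
        rw [hδη]
        have : 0 < (m : ℝ) * η := mul_pos hm1 hη0
        nlinarith)
      exact fin m z hm0 (by linarith) h3 h4
    · push Not at hc
      obtain ⟨m, z, hm1, hm2, hm3⟩ := pick hq1 hpq A1 ((A1 - θ - w) / η)
      have hD0 : 0 ≤ (A1 - θ - w) / η := div_nonneg (by linarith) hη0.le
      have hm0 : 0 < m := by exact_mod_cast hD0.trans_lt hm1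
      have h5 : (A1 - θ - w) < m * η := (div_lt_iff₀ hη0).1 hm1
      have h6 : (m : ℝ) * η ≤ (A1 - θ - w) + q * η := by
        have := mul_le_mul_of_nonneg_right hm2 hη0.le
        rw [add_mul, div_mul_cancel₀ _ hη0.ne'] at this
        exact this
      obtain ⟨h3, h4⟩ := key m A1 z hm3 (by rw [hδη]; nlinarith) (by rw [hδη]; nlinarith)
      refine fin m z hm0 ?_ h3 h4
      -- the bound
      have h7 : (m : ℝ) * η < 1 - w + 2 * (q * η) := by linarith
      have h8 : (1 - w) ≤ (1 - w) * (b * (N * η)) := by nlinarith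
      have h9 : (1 - w) * (b * (N * η)) = (b * N - b * q) * η := by
        have : w * N = q := by rw [hw]; field_simp
        linear_combination (-(b * η)) * this
      have h10 : (m : ℝ) * η < (b * N - b * q + 2 * q) * η := by nlinarith
      have h11 : (m : ℝ) < b * N - b * q + 2 * q := lt_of_mul_lt_mul_right h10 hη0.le
      nlinarith
  · exfalso
    apply hirr 0
    rw [hzero]
    simp
  · -- `δ > 0`
    rw [abs_of_pos hpos] at h1 h2
    set A0 : ℤ := ⌊θ⌋ with hA0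
    have hA0a : (A0 : ℝ) ≤ θ := Int.floor_le _
    have hA0b : θ < A0 + 1 := Int.lt_floor_add_one _
    have hqδ : q * δ < w := by
      rw [hw, lt_div_iff₀ hN0]
      nlinarith
    rcases lt_or_ge (q * δ) ((θ - A0) + w - 1) with hc | hc
    · obtain ⟨m, z, hm1, hm2, hm3⟩ := pick hq1 hpq (A0 + 1) 0
      have hm0 : 0 < m := by exact_mod_cast hm1
      obtain ⟨h3, h4⟩ := key m (A0 + 1) z hm3 (by
        push_cast
        have : 0 < (m : ℝ) * δ := mul_pos hm1 hpos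
        nlinarith) (by
        push_cast
        have : (m : ℝ) * δ ≤ q * δ := by
          apply mul_le_mul_of_nonneg_right _ hpos.le
          linarith
        nlinarith)
      exact fin m z hm0 (by linarith) h3 h4
    · rcases hA0a.eq_or_lt with he | hlt
      · -- `θ` is an integer
        obtain ⟨m, z, hm1, hm2, hm3⟩ := pick hq1 hpq A0 0
        have hm0 : 0 < m := by exact_mod_cast hm1
        obtain ⟨h3, h4⟩ := key m A0 z hm3 (by
          have : 0 < (m : ℝ) * δ := mul_pos hm1 hpos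
          linarith) (by
          have : (m : ℝ) * δ ≤ q * δ := by
            apply mul_le_mul_of_nonneg_right _ hpos.le
            linarith
          linarith)
        exact fin m z hm0 (by linarith) h3 h4
      · obtain ⟨m, z, hm1, hm2, hm3⟩ := pick' hq1 hpq A0 ((θ - A0) / δ)
        have hD0 : 0 < (θ - A0) / δ := div_pos (by linarith) hpos
        have hm0 : 0 < m := by exact_mod_cast hD0.trans_le hm1
        have h5 : (θ - A0) ≤ m * δ := (div_le_iff₀ hpos).1 hm1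
        have h6 : (m : ℝ) * δ < (θ - A0) + q * δ := by
          have := mul_lt_mul_of_pos_right hm2 hpos
          rw [add_mul, div_mul_cancel₀ _ hpos.ne'] at this
          exact this
        obtain ⟨h3, h4⟩ := key m A0 z hm3 (by linarith) (by linarith)
        refine fin m z hm0 ?_ h3 h4
        have h7 : (m : ℝ) * δ < 1 - w + 2 * (q * δ) := by linarith
        have h8 : (1 - w) ≤ (1 - w) * (b * (N * δ)) := by nlinarith
        have h9 : (1 - w) * (b * (N * δ)) = (b * N - b * q) * δ := by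
          have : w * N = q := by rw [hw]; field_simp
          linear_combination (-(b * δ)) * this
        have h10 : (m : ℝ) * δ < (b * N - b * q + 2 * q) * δ := by nlinarith
        have h11 : (m : ℝ) < b * N - b * q + 2 * q := lt_of_mul_lt_mul_right h10 hpos.le
        nlinarith

/-- one good place after `n₀` -/
theorem place {b : ℕ} (k : ℕ) (hb : 2 ≤ b) {α : ℝ} (hα : Irrational α) (n₀ : ℕ) :
    ∃ t : ℕ, (∀ x : ℝ, ∀ w : ℕ, w < b ^ k → ∃ m : ℕ, 1 ≤ m ∧ m ≤ b ^ (k + 1) - b + 1 ∧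
      ⌊(x + m * α) * (b : ℝ) ^ (t + n₀ + k)⌋ % ((b ^ k : ℕ) : ℤ) = w) ∧
      ∃ r : ℚ, r.den ≤ b ^ k ∧ (b : ℝ) ^ t * |(b : ℝ) ^ n₀ * α - r| < 1 := by
  have hirr : ∀ n : ℕ, Irrational ((b : ℝ) ^ n * α) := by
    intro n
    have : Irrational (((b ^ n : ℕ) : ℝ) * α) := hα.natCast_mul (by positivity)
    simpa using this
  have hNN : 1 ≤ b ^ k := Nat.one_le_pow _ _ (by omega)
  obtain ⟨t, s, hs1, hs2, hs3, r, hr1, hr2⟩ := stepA hb hNN (hirr n₀)
  have hy : Irrational ((b : ℝ) ^ t * ((b : ℝ) ^ n₀ * α)) := by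
    have h := hirr (t + n₀)
    rw [pow_add, mul_assoc] at h
    exact h
  refine ⟨t, fun x w hw => ?_, r, hr1, hr2⟩
  obtain ⟨m, hm1, hm2, z, hz1, hz2⟩ := stepB hb hNN hy hs1 hs2 hs3
    ((w : ℝ) - ((b ^ k : ℕ) : ℝ) * ((b : ℝ) ^ (t + n₀) * x))
  refine ⟨m, hm1, by rw [pow_succ, mul_comm (b ^ k)]; exact hm2, ?_⟩
  have hfl : ⌊(x + m * α) * (b : ℝ) ^ (t + n₀ + k)⌋ = w + z * ((b ^ k : ℕ) : ℤ) := by
    rw [Int.floor_eq_iff]
    have e : (x + m * α) * (b : ℝ) ^ (t + n₀ + k) =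
        ((b ^ k : ℕ) : ℝ) * (m * ((b : ℝ) ^ t * ((b : ℝ) ^ n₀ * α)) - z) + z * ((b ^ k : ℕ) : ℝ) +
          ((b ^ k : ℕ) : ℝ) * ((b : ℝ) ^ (t + n₀) * x) := by
      push_cast
      rw [pow_add, pow_add]
      ring
    rw [e]
    push_cast at hz1 hz2 ⊢
    constructor <;> linarith
  rw [hfl, Int.add_mul_emod_self_right]
  exact Int.emod_eq_of_lt (by positivity) (by exact_mod_cast hw)

/-- Ridout's theorem for bounded denominators -/
lemma gap {b : ℕ} (hb : 2 ≤ b) {α : ℝ} (halg : IsAlgebraic ℚ α) (hα : Irrational α) (N : ℕ) {η : ℝ} (hη : 0 < η) :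
    ∃ κ : ℝ, 0 < κ ∧ ∀ (n : ℕ) (r : ℚ), r.den ≤ N → κ ≤ ((b : ℝ) ^ n) ^ η * |(b : ℝ) ^ n * α - r| := by
  have hb0 : (0 : ℝ) < b := by exact_mod_cast (by omega : 0 < b)
  have hone : ∀ q : ℕ, ∃ κ : ℝ, 0 < κ ∧ ∀ (n : ℕ) (r : ℚ), r.den = q →
      κ ≤ ((b : ℝ) ^ n) ^ η * |(b : ℝ) ^ n * α - r| := by
    intro q
    rcases Nat.eq_zero_or_pos q with h0 | hq
    · refine ⟨1, one_pos, fun n r hr => ?_⟩
      have := r.den_pos
      omega
    · obtain ⟨κ, hκ, h⟩ := Pool.Agent.TH419.FS.ridout_units b (q + 1) hb (by omega) α halg hα η hη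
      have hq0 : (0 : ℝ) < q := by exact_mod_cast hq
      rcases Nat.lt_or_ge q 2 with h2 | h2
      · -- `q = 1`
        have hq1 : q = 1 := by omega
        refine ⟨κ, hκ, fun n r hr => ?_⟩
        have h3 := h n 0 r.num
        have h4 : (r : ℝ) = r.num := by
          have h5 : r = (r.num : ℚ) := by
            conv_lhs => rw [← Rat.num_div_den r]
            rw [hr, hq1]
            simp
          exact_mod_cast congrArg (fun t : ℚ => (t : ℝ)) h5
        simp only [pow_zero, mul_one] at h3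
        rw [h4]
        exact h3
      · obtain ⟨κ', hκ', h'⟩ := Pool.Agent.TH419.FS.ridout_units b q hb h2 α halg hα η hη
        have hqη : (0 : ℝ) < (q : ℝ) ^ η := Real.rpow_pos_of_pos hq0 _
        refine ⟨κ' / ((q : ℝ) ^ η * q), by positivity, fun n r hr => ?_⟩
        have h3 := h' n 1 r.num
        have h4 : (r : ℝ) = r.num / q := by
          rw [← hr]
          exact_mod_cast (Rat.num_div_den r).symm
        rw [pow_one] at h3
        have h5 : |(b : ℝ) ^ n * q * α - r.num| = q * |(b : ℝ) ^ n * α - r| := by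
          rw [h4, ← abs_of_pos hq0, ← abs_mul, abs_of_pos hq0]
          congr 1
          field_simp
        have h6 : ((b : ℝ) ^ n * q) ^ η = ((b : ℝ) ^ n) ^ η * (q : ℝ) ^ η :=
          Real.mul_rpow (by positivity) hq0.le
        rw [h5, h6] at h3
        rw [div_le_iff₀ (by positivity)]
        calc κ' ≤ _ := h3
          _ = _ := by ring
  choose κ hκ h using hone
  have hne : (Finset.range (N + 1)).Nonempty := Finset.nonempty_range_iff.2 (by omega)
  refine ⟨(Finset.range (N + 1)).inf' hne κ, ?_, fun n r hr => ?_⟩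
  · rw [Finset.lt_inf'_iff]
    exact fun q _ => hκ q
  · exact (Finset.inf'_le κ (Finset.mem_range.2 (by omega))).trans (h r.den n r rfl)

/-- a good place in every interval `[n, (1 + ε) n]` for algebraic numbers -/
theorem place_alg {b : ℕ} (k : ℕ) (hb : 2 ≤ b) {α : ℝ} (halg : IsAlgebraic ℚ α) (hα : Irrational α) {ε : ℝ}
    (hε : 0 < ε) : ∃ L : ℕ, ∀ n₀ : ℕ, L ≤ n₀ → ∃ n : ℕ, n₀ ≤ n ∧ (n : ℝ) ≤ (1 + ε) * n₀ ∧
      ∀ x : ℝ, ∀ w : ℕ, w < b ^ k → ∃ m : ℕ, 1 ≤ m ∧ m ≤ b ^ (k + 1) - b + 1 ∧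
      ⌊(x + m * α) * (b : ℝ) ^ n⌋ % ((b ^ k : ℕ) : ℤ) = w := by
  have hbR : (2 : ℝ) ≤ b := by exact_mod_cast hb
  have hb0 : (0 : ℝ) < b := by linarith
  have hlb : 0 < Real.log b := Real.log_pos (by linarith)
  obtain ⟨κ, hκ, hgap⟩ := gap hb halg hα (b ^ k) (half_pos hε)
  obtain ⟨L, hL⟩ := exists_nat_ge ((k - Real.log κ / Real.log b) / (ε / 2))
  refine ⟨L, fun n₀ hn₀ => ?_⟩
  obtain ⟨t, h1, r, hr1, hr2⟩ := place k hb hα n₀
  refine ⟨t + n₀ + k, by omega, ?_, h1⟩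
  have h2 := hgap n₀ r hr1
  have hD0 : 0 < |(b : ℝ) ^ n₀ * α - r| := by
    by_contra hcon
    have : |(b : ℝ) ^ n₀ * α - r| = 0 := le_antisymm (not_lt.1 hcon) (abs_nonneg _)
    rw [this, mul_zero] at h2
    linarith
  have h3 : (b : ℝ) ^ t * κ ≤ ((b : ℝ) ^ n₀) ^ (ε / 2) := by
    have hp : 0 < ((b : ℝ) ^ n₀) ^ (ε / 2) := Real.rpow_pos_of_pos (by positivity) _
    calc (b : ℝ) ^ t * κ ≤ (b : ℝ) ^ t * (((b : ℝ) ^ n₀) ^ (ε / 2) * |(b : ℝ) ^ n₀ * α - r|) :=
          mul_le_mul_of_nonneg_left h2 (by positivity)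
      _ = ((b : ℝ) ^ n₀) ^ (ε / 2) * ((b : ℝ) ^ t * |(b : ℝ) ^ n₀ * α - r|) := by ring
      _ ≤ ((b : ℝ) ^ n₀) ^ (ε / 2) * 1 := mul_le_mul_of_nonneg_left hr2.le hp.le
      _ = _ := mul_one _
  have h4 : (t : ℝ) * Real.log b + Real.log κ ≤ (ε / 2) * (n₀ * Real.log b) := by
    have h5 := Real.log_le_log (by positivity) h3
    rw [Real.log_mul (by positivity) hκ.ne', Real.log_pow, Real.log_rpow (by positivity), Real.log_pow] at h5
    exact h5
  have h6 : (t : ℝ) + Real.log κ / Real.log b ≤ (ε / 2) * n₀ := by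
    have h7 : ((t : ℝ) + Real.log κ / Real.log b) * Real.log b ≤ ((ε / 2) * n₀) * Real.log b := by
      rw [add_mul, div_mul_cancel₀ _ hlb.ne']
      linarith
    exact le_of_mul_le_mul_right h7 hlb
  have h8 : (k : ℝ) - Real.log κ / Real.log b ≤ (ε / 2) * n₀ := by
    have h9 : (L : ℝ) ≤ n₀ := by exact_mod_cast hn₀
    have h10 := hL.trans h9
    rw [div_le_iff₀ (by positivity)] at h10
    linarith
  push_cast
  linarith

/-- from infinitely many places to one multiplier -/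
lemma inf_of_freq {K : ℕ} {P : ℕ → ℕ → Prop} (h : ∀ n₀ : ℕ, ∃ n, n₀ ≤ n ∧ ∃ m : ℕ, 1 ≤ m ∧ m ≤ K ∧ P m n) :
    ∃ m : ℕ, 1 ≤ m ∧ m ≤ K ∧ {n : ℕ | P m n}.Infinite := by
  by_contra hcon
  push Not at hcon
  have hfin : (⋃ m ∈ Finset.Icc 1 K, {n : ℕ | P m n}).Finite := by
    apply Set.Finite.biUnion (Finset.finite_toSet _)
    intro m hm
    rw [Finset.mem_coe, Finset.mem_Icc] at hm
    exact hcon m hm.1 hm.2
  obtain ⟨B, hB⟩ := hfin.bddAbove
  obtain ⟨n, hn, m, hm1, hm2, hP⟩ := h (B + 1)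
  have := hB (show n ∈ ⋃ m ∈ Finset.Icc 1 K, {n : ℕ | P m n} from by
    simp only [Set.mem_iUnion, Finset.mem_Icc]
    exact ⟨m, ⟨hm1, hm2⟩, hP⟩)
  omega

/-- one multiplier in every long piece of an arithmetic progression -/
theorem progression {b k : ℕ} (hb : 2 ≤ b) {α : ℝ} (hα : Irrational α) (x : ℝ) {d : ℕ} (hd : 1 ≤ d) (r : ℤ)
    {w : ℕ} (hw : w < b ^ k) : ∃ i : ℕ, 1 ≤ i ∧ i ≤ b ^ (k + 1) - b + 1 ∧
      {n : ℕ | ⌊(x + ((r + d * i : ℤ) : ℝ) * α) * (b : ℝ) ^ n⌋ % ((b ^ k : ℕ) : ℤ) = w}.Infinite := by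
  apply inf_of_freq
  intro n₀
  have hα' : Irrational ((d : ℝ) * α) := hα.natCast_mul (by omega)
  obtain ⟨t, h1, -⟩ := place k hb hα' n₀
  obtain ⟨m, hm1, hm2, hm3⟩ := h1 (x + r * α) w hw
  refine ⟨t + n₀ + k, by omega, m, hm1, hm2, ?_⟩
  rw [← hm3]
  congr 2
  push_cast
  ring

end Pool.Agent.R471.MS
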