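import Pool.Agent.R471.MahlerWord
/-!
Words of digits in the shifted multiples `x + m α_j` of one of several numbers: places at which all words of `k` digits
stand, from a simultaneous measure of approximation.
-/
set_option autoImplicit false
open Filter

namespace Pool.Agent.R471.MQ

open Pool.Agent.R471.MW (den_mul_le pick)

/-- rational approximations of the right quality, with a bound for the time -/
lemma stepA {b N : ℕ} (hb : 2 ≤ b) (hN : 1 ≤ N) {x : ℝ} {r : ℚ} (hr1 : |x - r| ≤ 1 / ((N + 1) * r.den))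
    (hr2 : r.den ≤ N) (hx : x ≠ r) :
    ∃ (t : ℕ) (s : ℚ), s.den ≤ N ∧ (N : ℝ) * (s.den * |(b : ℝ) ^ t * x - s|) < 1 ∧
      1 ≤ (b : ℝ) * (N * (s.den * |(b : ℝ) ^ t * x - s|)) ∧ (b : ℝ) ^ t * |x - r| < 1 := by
  have hNR : (1 : ℝ) ≤ N := by exact_mod_cast hN
  have hbR : (2 : ℝ) ≤ b := by exact_mod_cast hb
  set D : ℝ := |x - r| with hD
  have hD0 : 0 < D := abs_pos.2 (sub_ne_zero.2 hx)
  set e : ℕ → ℝ := fun t => (N : ℝ) * ((((b : ℚ) ^ t * r).den : ℝ) * ((b : ℝ) ^ t * D)) with he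
  have hden : ∀ t : ℕ, ((b : ℚ) ^ t * r).den ≤ N := by
    intro t
    induction t with
    | zero => simpa using hr2
    | succ t ih =>
      refine le_trans ?_ ih
      have h := den_mul_le b ((b : ℚ) ^ t * r)
      rw [pow_succ', mul_assoc]
      exact h
  have hstep : ∀ t, e (t + 1) ≤ b * e t := by
    intro t
    have h : (((b : ℚ) ^ (t + 1) * r).den : ℝ) ≤ (((b : ℚ) ^ t * r).den : ℝ) := by
      have h := den_mul_le b ((b : ℚ) ^ t * r)
      rw [pow_succ', mul_assoc]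
      exact_mod_cast h
    simp only [he]
    calc (N : ℝ) * ((((b : ℚ) ^ (t + 1) * r).den : ℝ) * ((b : ℝ) ^ (t + 1) * D))
        ≤ (N : ℝ) * ((((b : ℚ) ^ t * r).den : ℝ) * ((b : ℝ) ^ (t + 1) * D)) := by gcongr
      _ = _ := by ring
  have h0 : e 0 < 1 := by
    simp only [he, pow_zero, one_mul]
    have hden0 : (0 : ℝ) < r.den := by exact_mod_cast r.den_pos
    rw [le_div_iff₀ (by positivity)] at hr1
    have : (N : ℝ) * (r.den * D) < D * ((N + 1) * r.den) := by nlinarith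
    linarith
  have hlarge : ∃ t, 1 ≤ e t := by
    obtain ⟨t, ht⟩ := pow_unbounded_of_one_lt (1 / D) (by linarith : (1 : ℝ) < b)
    refine ⟨t, ?_⟩
    rw [div_lt_iff₀ hD0] at ht
    simp only [he]
    have h1 : (1 : ℝ) ≤ (((b : ℚ) ^ t * r).den : ℝ) := by exact_mod_cast ((b : ℚ) ^ t * r).den_pos
    have h2 : 1 ≤ (((b : ℚ) ^ t * r).den : ℝ) * ((b : ℝ) ^ t * D) := by nlinarith
    nlinarith
  classical
  obtain ⟨t, ht1, ht2⟩ : ∃ t, e t < 1 ∧ 1 ≤ e (t + 1) := by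
    have hf := Nat.find_spec hlarge
    have hpos : Nat.find hlarge ≠ 0 := by
      intro h
      rw [h] at hf
      linarith
    obtain ⟨t, ht⟩ := Nat.exists_eq_succ_of_ne_zero hpos
    refine ⟨t, ?_, ?_⟩
    · have := Nat.find_min hlarge (m := t) (by omega)
      exact not_le.1 this
    · rw [ht] at hf
      exact hf
  have habs : |(b : ℝ) ^ t * x - (((b : ℚ) ^ t * r : ℚ) : ℝ)| = (b : ℝ) ^ t * D := by
    push_cast
    rw [← mul_sub, abs_mul, abs_of_nonneg (by positivity)]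
  refine ⟨t, (b : ℚ) ^ t * r, hden t, ?_, ?_, ?_⟩
  · rw [habs]; exact ht1
  · rw [habs]; exact ht2.trans (hstep t)
  · have h1 : (1 : ℝ) ≤ (((b : ℚ) ^ t * r).den : ℝ) := by exact_mod_cast ((b : ℚ) ^ t * r).den_pos
    have h2 : 0 ≤ (b : ℝ) ^ t * D := by positivity
    have h3 : (b : ℝ) ^ t * D ≤ (((b : ℚ) ^ t * r).den : ℝ) * ((b : ℝ) ^ t * D) := by nlinarith
    have h4 : (((b : ℚ) ^ t * r).den : ℝ) * ((b : ℝ) ^ t * D) ≤
        (N : ℝ) * ((((b : ℚ) ^ t * r).den : ℝ) * ((b : ℝ) ^ t * D)) := by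
      have : 0 ≤ (((b : ℚ) ^ t * r).den : ℝ) * ((b : ℝ) ^ t * D) := by positivity
      nlinarith
    exact (h3.trans h4).trans_lt ht1

/-- an integer in a half-open interval of length `q` with a prescribed residue class -/
lemma pick' {p : ℤ} {q : ℕ} (hq : 1 ≤ q) (hpq : IsCoprime p (q : ℤ)) (A : ℤ) (u : ℝ) :
    ∃ m z : ℤ, u ≤ m ∧ (m : ℝ) < u + q ∧ m * p = A + z * q := by
  obtain ⟨a, c, hac⟩ := hpq
  have hq0 : (0 : ℝ) < q := by exact_mod_cast hq
  set f : ℤ := ⌈(u - (A * a : ℤ)) / q⌉ with hf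
  refine ⟨A * a + q * f, -(A * c) + f * p, ?_, ?_, ?_⟩
  · have h := Int.le_ceil ((u - (A * a : ℤ)) / q)
    rw [← hf, div_le_iff₀ hq0] at h
    push_cast at h ⊢
    linarith
  · have h := Int.ceil_lt_add_one ((u - (A * a : ℤ)) / q)
    rw [← hf] at h
    have h2 : (f : ℝ) * q < ((u - (A * a : ℤ)) / q + 1) * q := mul_lt_mul_of_pos_right h hq0
    rw [add_mul, div_mul_cancel₀ _ hq0.ne'] at h2
    push_cast at h2 ⊢
    linarith
  · linear_combination A * hac

/-- the multiples of a number with a good rational approximation are dense of order `1 / N` -/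
lemma stepB {b N : ℕ} (hb : 2 ≤ b) (hN : 1 ≤ N) {y : ℝ} {s : ℚ} (hs : s.den ≤ N)
    (h1 : (N : ℝ) * (s.den * |y - s|) < 1) (h2 : 1 ≤ (b : ℝ) * (N * (s.den * |y - s|))) (v : ℝ) :
    ∃ m : ℕ, 1 ≤ m ∧ m ≤ b * N - b + 1 ∧ ∃ z : ℤ, v ≤ N * (m * y - z) ∧ N * (m * y - z) < v + 1 := by
  have hNR : (1 : ℝ) ≤ N := by exact_mod_cast hN
  have hN0 : (0 : ℝ) < N := by linarith
  have hbR : (2 : ℝ) ≤ b := by exact_mod_cast hb
  obtain ⟨q, hq⟩ : ∃ q, q = s.den := ⟨_, rfl⟩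
  obtain ⟨p, hp⟩ : ∃ p, p = s.num := ⟨_, rfl⟩
  have hq1 : 1 ≤ q := by rw [hq]; exact s.den_pos
  have hqR : (1 : ℝ) ≤ q := by exact_mod_cast hq1
  have hq0 : (0 : ℝ) < q := by linarith
  have hqN : (q : ℝ) ≤ N := by rw [hq]; exact_mod_cast hs
  have hpq : IsCoprime p (q : ℤ) := by
    rw [hq, hp, Int.isCoprime_iff_gcd_eq_one, Int.gcd]
    simpa using s.reduced
  have hsR : (s : ℝ) = p / q := by
    rw [hp, hq]
    exact_mod_cast (Rat.num_div_den s).symm
  -- `δ = q y - p`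
  obtain ⟨δ, hδ⟩ : ∃ δ : ℝ, δ = q * y - p := ⟨_, rfl⟩
  have hqs : (q : ℝ) * (y - s) = δ := by
    rw [hsR, hδ]; field_simp
  have habs : (s.den : ℝ) * |y - s| = |δ| := by
    rw [← hq, ← hqs, abs_mul, abs_of_pos hq0]
  rw [habs] at h1 h2
  have hmy : ∀ m : ℤ, ∀ A z : ℤ, m * p = A + z * q → (m : ℝ) * y - z = (A + m * δ) / q := by
    intro m A z h
    have h' : (m : ℝ) * p = A + z * q := by exact_mod_cast h
    rw [hδ]
    field_simp
    linarith
  have hcast : ((b * N - b + 1 : ℕ) : ℝ) = b * N - b + 1 := by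
    have : b ≤ b * N := Nat.le_mul_of_pos_right b (by omega)
    push_cast [Nat.cast_sub this]
    ring
  have hqle : (q : ℝ) < b * N - b + 2 := by nlinarith
  -- finish from an integer `m`
  have fin : ∀ m z : ℤ, 0 < m → (m : ℝ) < b * N - b + 2 → v ≤ N * (m * y - z) → N * (m * y - z) < v + 1 →
      ∃ m : ℕ, 1 ≤ m ∧ m ≤ b * N - b + 1 ∧ ∃ z : ℤ, v ≤ N * (m * y - z) ∧ N * (m * y - z) < v + 1 := by
    intro m z hm0 hm1 h3 h4
    obtain ⟨k, rfl⟩ := Int.eq_ofNat_of_zero_le hm0.le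
    rw [Int.cast_natCast] at hm1 h3 h4
    refine ⟨k, by omega, ?_, z, h3, h4⟩
    have h5 : (k : ℝ) < ((b * N - b + 1 : ℕ) : ℝ) + 1 := by rw [hcast]; linarith
    have h6 : k < b * N - b + 1 + 1 := by exact_mod_cast h5
    omega
  set θ : ℝ := q * v / N with hθ
  set w : ℝ := q / N with hw
  have hNθ : (N : ℝ) * θ = q * v := by rw [hθ]; field_simp
  have hNw : (N : ℝ) * w = q := by rw [hw]; field_simp
  have hw0 : 0 < w := by positivity
  have hw1 : 0 ≤ 1 - w := by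
    rw [sub_nonneg, hw, div_le_one hN0]
    exact hqN
  have key : ∀ m A z : ℤ, m * p = A + z * q → θ ≤ A + m * δ → A + m * δ < θ + w →
      v ≤ N * (m * y - z) ∧ N * (m * y - z) < v + 1 := by
    intro m A z h h3 h4
    rw [hmy m A z h]
    constructor
    · rw [mul_div_assoc', le_div_iff₀ hq0]
      nlinarith
    · rw [mul_div_assoc', div_lt_iff₀ hq0]
      nlinarith
  rcases lt_trichotomy δ 0 with hneg | hzero | hpos
  · -- `δ < 0`
    obtain ⟨η, hη⟩ : ∃ η, η = -δ := ⟨_, rfl⟩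
    have hη0 : 0 < η := by linarith
    have habsη : |δ| = η := by rw [abs_of_neg hneg, hη]
    rw [habsη] at h1 h2
    have hδη : δ = -η := by linarith
    set A1 : ℤ := ⌈θ + w⌉ with hA1
    have hA1a : θ + w ≤ A1 := Int.le_ceil _
    have hA1b : (A1 : ℝ) < θ + w + 1 := Int.ceil_lt_add_one _
    have hqη : q * η < w := by
      rw [hw, lt_div_iff₀ hN0]
      nlinarith
    by_cases hc : q * η ≤ (A1 - θ - w) + w - 1
    · obtain ⟨m, z, hm1, hm2, hm3⟩ := pick hq1 hpq (A1 - 1) 0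
      have hm0 : 0 < m := by exact_mod_cast hm1
      obtain ⟨h3, h4⟩ := key m (A1 - 1) z hm3 (by
        push_cast
        rw [hδη]
        have : (m : ℝ) * η ≤ q * η := by
          apply mul_le_mul_of_nonneg_right _ hη0.le
          linarith
        nlinarith) (by
        push_cast
        rw [hδη]
        have : 0 < (m : ℝ) * η := mul_pos hm1 hη0
        nlinarith)
      exact fin m z hm0 (by linarith) h3 h4
    · push Not at hc
      obtain ⟨m, z, hm1, hm2, hm3⟩ := pick hq1 hpq A1 ((A1 - θ - w) / η)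
      have hD0 : 0 ≤ (A1 - θ - w) / η := div_nonneg (by linarith) hη0.le
      have hm0 : 0 < m := by exact_mod_cast hD0.trans_lt hm1
      have h5 : (A1 - θ - w) < m * η := (div_lt_iff₀ hη0).1 hm1
      have h6 : (m : ℝ) * η ≤ (A1 - θ - w) + q * η := by
        have := mul_le_mul_of_nonneg_right hm2 hη0.le
        rw [add_mul, div_mul_cancel₀ _ hη0.ne'] at this
        exact this
      obtain ⟨h3, h4⟩ := key m A1 z hm3 (by rw [hδη]; nlinarith) (by rw [hδη]; nlinarith)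
      refine fin m z hm0 ?_ h3 h4
      -- the bound
      have h7 : (m : ℝ) * η < 1 - w + 2 * (q * η) := by linarith
      have h8 : (1 - w) ≤ (1 - w) * (b * (N * η)) := by nlinarith
      have h9 : (1 - w) * (b * (N * η)) = (b * N - b * q) * η := by
        have : w * N = q := by rw [hw]; field_simp
        linear_combination (-(b * η)) * this
      have h10 : (m : ℝ) * η < (b * N - b * q + 2 * q) * η := by nlinarith
      have h11 : (m : ℝ) < b * N - b * q + 2 * q := lt_of_mul_lt_mul_right h10 hη0.le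
      nlinarith
  · exfalso
    rw [hzero, abs_zero] at h2
    norm_num at h2
  · -- `δ > 0`
    rw [abs_of_pos hpos] at h1 h2
    set A0 : ℤ := ⌊θ⌋ with hA0
    have hA0a : (A0 : ℝ) ≤ θ := Int.floor_le _
    have hA0b : θ < A0 + 1 := Int.lt_floor_add_one _
    have hqδ : q * δ < w := by
      rw [hw, lt_div_iff₀ hN0]
      nlinarith
    rcases lt_or_ge (q * δ) ((θ - A0) + w - 1) with hc | hc
    · obtain ⟨m, z, hm1, hm2, hm3⟩ := pick hq1 hpq (A0 + 1) 0
      have hm0 : 0 < m := by exact_mod_cast hm1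
      obtain ⟨h3, h4⟩ := key m (A0 + 1) z hm3 (by
        push_cast
        have : 0 < (m : ℝ) * δ := mul_pos hm1 hpos
        nlinarith) (by
        push_cast
        have : (m : ℝ) * δ ≤ q * δ := by
          apply mul_le_mul_of_nonneg_right _ hpos.le
          linarith
        nlinarith)
      exact fin m z hm0 (by linarith) h3 h4
    · rcases hA0a.eq_or_lt with he | hlt
      · -- `θ` is an integer
        obtain ⟨m, z, hm1, hm2, hm3⟩ := pick hq1 hpq A0 0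
        have hm0 : 0 < m := by exact_mod_cast hm1
        obtain ⟨h3, h4⟩ := key m A0 z hm3 (by
          have : 0 < (m : ℝ) * δ := mul_pos hm1 hpos
          linarith) (by
          have : (m : ℝ) * δ ≤ q * δ := by
            apply mul_le_mul_of_nonneg_right _ hpos.le
            linarith
          linarith)
        exact fin m z hm0 (by linarith) h3 h4
      · obtain ⟨m, z, hm1, hm2, hm3⟩ := pick' hq1 hpq A0 ((θ - A0) / δ)
        have hD0 : 0 < (θ - A0) / δ := div_pos (by linarith) hpos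
        have hm0 : 0 < m := by exact_mod_cast hD0.trans_le hm1
        have h5 : (θ - A0) ≤ m * δ := (div_le_iff₀ hpos).1 hm1
        have h6 : (m : ℝ) * δ < (θ - A0) + q * δ := by
          have := mul_lt_mul_of_pos_right hm2 hpos
          rw [add_mul, div_mul_cancel₀ _ hpos.ne'] at this
          exact this
        obtain ⟨h3, h4⟩ := key m A0 z hm3 (by linarith) (by linarith)
        refine fin m z hm0 ?_ h3 h4
        have h7 : (m : ℝ) * δ < 1 - w + 2 * (q * δ) := by linarith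
        have h8 : (1 - w) ≤ (1 - w) * (b * (N * δ)) := by nlinarith
        have h9 : (1 - w) * (b * (N * δ)) = (b * N - b * q) * δ := by
          have : w * N = q := by rw [hw]; field_simp
          linear_combination (-(b * δ)) * this
        have h10 : (m : ℝ) * δ < (b * N - b * q + 2 * q) * δ := by nlinarith
        have h11 : (m : ℝ) < b * N - b * q + 2 * q := lt_of_mul_lt_mul_right h10 hpos.le
        nlinarith


/-- a good place after `n₀`, with the time controlled by the distance from a rational number of small denominator -/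
theorem place {b : ℕ} (k : ℕ) (hb : 2 ≤ b) (α : ℝ) (n₀ : ℕ) :
    ∃ r : ℚ, r.den ≤ b ^ k ∧ ((b : ℝ) ^ n₀ * α ≠ r → ∃ t : ℕ, (b : ℝ) ^ t * |(b : ℝ) ^ n₀ * α - r| < 1 ∧
      ∀ x : ℝ, ∀ w : ℕ, w < b ^ k → ∃ m : ℕ, 1 ≤ m ∧ m ≤ b ^ (k + 1) - b + 1 ∧
      ⌊(x + m * α) * (b : ℝ) ^ (t + n₀ + k)⌋ % ((b ^ k : ℕ) : ℤ) = w) := by
  have hNN : 1 ≤ b ^ k := Nat.one_le_pow _ _ (by omega)
  obtain ⟨r, hr1, hr2⟩ := Real.exists_rat_abs_sub_le_and_den_le ((b : ℝ) ^ n₀ * α) (n := b ^ k) (by omega)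
  refine ⟨r, hr2, fun hne => ?_⟩
  obtain ⟨t, s, hs1, hs2, hs3, hs4⟩ := stepA hb hNN hr1 hr2 hne
  refine ⟨t, hs4, fun x w hw => ?_⟩
  obtain ⟨m, hm1, hm2, z, hz1, hz2⟩ := stepB hb hNN hs1 hs2 hs3
    ((w : ℝ) - ((b ^ k : ℕ) : ℝ) * ((b : ℝ) ^ (t + n₀) * x))
  refine ⟨m, hm1, by rw [pow_succ, mul_comm (b ^ k)]; exact hm2, ?_⟩
  have hfl : ⌊(x + m * α) * (b : ℝ) ^ (t + n₀ + k)⌋ = w + z * ((b ^ k : ℕ) : ℤ) := by
    rw [Int.floor_eq_iff]
    have e : (x + m * α) * (b : ℝ) ^ (t + n₀ + k) =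
        ((b ^ k : ℕ) : ℝ) * (m * ((b : ℝ) ^ t * ((b : ℝ) ^ n₀ * α)) - z) + z * ((b ^ k : ℕ) : ℝ) +
          ((b ^ k : ℕ) : ℝ) * ((b : ℝ) ^ (t + n₀) * x) := by
      push_cast
      rw [pow_add, pow_add]
      ring
    rw [e]
    push_cast at hz1 hz2 ⊢
    constructor <;> linarith
  rw [hfl, Int.add_mul_emod_self_right]
  exact Int.emod_eq_of_lt (by positivity) (by exact_mod_cast hw)

/-- Good places for one of several numbers with a simultaneous measure of approximation. -/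
theorem family {T : Finset ℕ} {z : ℕ → ℝ} {c : ℝ} {μ : ℕ} (hc : 0 < c) (hμ : 1 ≤ μ)
    (hmeas : ∀ (a : ℕ → ℤ) (q : ℕ), 0 < q → ∃ j ∈ T, c / (q : ℝ) ^ μ ≤ |z j - (a j : ℝ) / q|)
    {b : ℕ} (k : ℕ) (hb : 2 ≤ b) : ∃ C : ℕ, ∀ n₀ : ℕ, ∃ n : ℕ, n₀ ≤ n ∧ n ≤ μ * n₀ + C ∧ ∃ j ∈ T,
      ∀ x : ℝ, ∀ w : ℕ, w < b ^ k → ∃ m : ℕ, 1 ≤ m ∧ m ≤ b ^ (k + 1) - b + 1 ∧
      ⌊(x + m * z j) * (b : ℝ) ^ n⌋ % ((b ^ k : ℕ) : ℤ) = w := by
  classical
  have hb0 : (0 : ℝ) < b := by exact_mod_cast (by omega : 0 < b)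
  have hb1 : (1 : ℝ) < b := by exact_mod_cast (by omega : 1 < b)
  obtain ⟨e, he⟩ := pow_unbounded_of_one_lt (1 / c) hb1
  refine ⟨k + e + k * T.card * μ, fun n₀ => ?_⟩
  choose r hr1 hr2 using fun j : ℕ => place k hb (z j) n₀
  -- the common denominator
  obtain ⟨P, hP⟩ : ∃ P : ℕ, P = ∏ j ∈ T, (r j).den := ⟨_, rfl⟩
  have hP0 : 0 < P := by rw [hP]; exact Finset.prod_pos fun j _ => (r j).den_pos
  have hPle : P ≤ b ^ (k * T.card) := by
    rw [hP]
    calc ∏ j ∈ T, (r j).den ≤ ∏ _j ∈ T, b ^ k := Finset.prod_le_prod' fun j _ => hr1 j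
      _ = b ^ (k * T.card) := by rw [Finset.prod_const, ← pow_mul]
  have hdiv : ∀ j ∈ T, ∃ a : ℤ, (r j : ℝ) = (a : ℝ) / P := by
    intro j hj
    have hd : (r j).den ∣ P := by rw [hP]; exact Finset.dvd_prod_of_mem (fun j => (r j).den) hj
    obtain ⟨f, hf⟩ := hd
    refine ⟨(r j).num * f, ?_⟩
    have h1 : (r j : ℝ) = (r j).num / (r j).den := by exact_mod_cast (Rat.num_div_den (r j)).symm
    have h2 : ((r j).den : ℝ) ≠ 0 := by exact_mod_cast (r j).den_pos.ne'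
    have h3 : (f : ℝ) ≠ 0 := by
      intro h0
      have h4 : f = 0 := by exact_mod_cast h0
      rw [h4] at hf
      omega
    rw [h1, hf]
    push_cast
    field_simp
  choose! a ha using hdiv
  obtain ⟨j, hj, hmj⟩ := hmeas a (P * b ^ n₀) (by positivity)
  have hPR : (0 : ℝ) < P := by exact_mod_cast hP0
  have hD : (b : ℝ) ^ n₀ * (c / ((P : ℝ) * (b : ℝ) ^ n₀) ^ μ) ≤ |(b : ℝ) ^ n₀ * z j - r j| := by
    have h1 : |(b : ℝ) ^ n₀ * z j - r j| = (b : ℝ) ^ n₀ * |z j - (a j : ℝ) / ((P * b ^ n₀ : ℕ) : ℝ)| := by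
      have hbn : (0 : ℝ) < (b : ℝ) ^ n₀ := by positivity
      have h0 : (b : ℝ) ^ n₀ * z j - (a j : ℝ) / P = (b : ℝ) ^ n₀ * (z j - (a j : ℝ) / ((P * b ^ n₀ : ℕ) : ℝ)) := by
        push_cast
        field_simp
      rw [ha j hj, h0, abs_mul, abs_of_pos hbn]
    rw [h1]
    apply mul_le_mul_of_nonneg_left _ (by positivity)
    push_cast at hmj ⊢
    exact hmj
  have hDpos : 0 < |(b : ℝ) ^ n₀ * z j - r j| := lt_of_lt_of_le (by positivity) hD
  obtain ⟨t, ht1, ht2⟩ := hr2 j (fun h => by rw [h, sub_self, abs_zero] at hDpos; exact lt_irrefl _ hDpos)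
  refine ⟨t + n₀ + k, by omega, ?_, j, hj, ht2⟩
  -- the bound
  have h1 : (b : ℝ) ^ (t + n₀) < (b : ℝ) ^ (e + (k * T.card + n₀) * μ) := by
    have h2 : (b : ℝ) ^ t * ((b : ℝ) ^ n₀ * (c / ((P : ℝ) * (b : ℝ) ^ n₀) ^ μ)) < 1 :=
      lt_of_le_of_lt (mul_le_mul_of_nonneg_left hD (by positivity)) ht1
    have h3 : (b : ℝ) ^ (t + n₀) * c < ((P : ℝ) * (b : ℝ) ^ n₀) ^ μ := by
      have h4 : (b : ℝ) ^ t * ((b : ℝ) ^ n₀ * (c / ((P : ℝ) * (b : ℝ) ^ n₀) ^ μ)) =
          (b : ℝ) ^ (t + n₀) * c / ((P : ℝ) * (b : ℝ) ^ n₀) ^ μ := by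
        rw [pow_add]
        ring
      rw [h4, div_lt_one (by positivity)] at h2
      exact h2
    have h5 : ((P : ℝ) * (b : ℝ) ^ n₀) ^ μ ≤ (b : ℝ) ^ ((k * T.card + n₀) * μ) := by
      rw [pow_mul]
      apply pow_le_pow_left₀ (by positivity)
      rw [pow_add]
      apply mul_le_mul_of_nonneg_right _ (by positivity)
      exact_mod_cast hPle
    have h6 : (b : ℝ) ^ (t + n₀) = (b : ℝ) ^ (t + n₀) * c * (1 / c) := by field_simp
    have h7 : (b : ℝ) ^ (e + (k * T.card + n₀) * μ) = (b : ℝ) ^ ((k * T.card + n₀) * μ) * (b : ℝ) ^ e := by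
      rw [← pow_add, add_comm]
    rw [h6, h7]
    exact mul_lt_mul'' (h3.trans_le h5) he (by positivity) (by positivity)
  have h2 : t + n₀ < e + (k * T.card + n₀) * μ := (pow_lt_pow_iff_right₀ hb1).1 h1
  have h3 : (k * T.card + n₀) * μ = k * T.card * μ + μ * n₀ := by ring
  omega

end Pool.Agent.R471.MQ
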