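import Mathlib
/-!
Words of digits in the multiples of an irrational number: every word of `k` digits in base `b` stands infinitely
often in the expansion of some multiple `m α` with `1 ≤ m ≤ b ^ (k + 1) - b + 1`.
-/
set_option autoImplicit false
open Filter

namespace Pool.Agent.R471.MW

/-- denominators do not grow when a rational number is multiplied by an integer -/
lemma den_mul_le (b : ℕ) (s : ℚ) : ((b : ℚ) * s).den ≤ s.den := by
  have h := Rat.mul_den_dvd (b : ℚ) s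
  rw [show ((b : ℚ)).den = 1 from Rat.den_natCast b, one_mul] at h
  exact Nat.le_of_dvd s.den_pos h

/-- rational approximations of the right quality -/
lemma stepA {b N : ℕ} (hb : 2 ≤ b) (hN : 1 ≤ N) {x : ℝ} (hx : Irrational x) :
    ∃ (t : ℕ) (s : ℚ), s.den ≤ N ∧ (N : ℝ) * (s.den * |(b : ℝ) ^ t * x - s|) < 1 ∧
      1 ≤ (b : ℝ) * (N * (s.den * |(b : ℝ) ^ t * x - s|)) := by
  obtain ⟨r, hr1, hr2⟩ := Real.exists_rat_abs_sub_le_and_den_le x (n := N) (by omega)
  have hNR : (1 : ℝ) ≤ N := by exact_mod_cast hN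
  have hbR : (2 : ℝ) ≤ b := by exact_mod_cast hb
  set D : ℝ := |x - r| with hD
  have hD0 : 0 < D := abs_pos.2 (sub_ne_zero.2 (hx.ne_rat r))
  set e : ℕ → ℝ := fun t => (N : ℝ) * ((((b : ℚ) ^ t * r).den : ℝ) * ((b : ℝ) ^ t * D)) with he
  have hden : ∀ t : ℕ, ((b : ℚ) ^ t * r).den ≤ N := by
    intro t
    induction t with
    | zero => simpa using hr2
    | succ t ih =>
      refine le_trans ?_ ih
      have h := den_mul_le b ((b : ℚ) ^ t * r)
      rw [pow_succ', mul_assoc]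
      exact h
  have hstep : ∀ t, e (t + 1) ≤ b * e t := by
    intro t
    have h : (((b : ℚ) ^ (t + 1) * r).den : ℝ) ≤ (((b : ℚ) ^ t * r).den : ℝ) := by
      have h := den_mul_le b ((b : ℚ) ^ t * r)
      rw [pow_succ', mul_assoc]
      exact_mod_cast h
    simp only [he]
    calc (N : ℝ) * ((((b : ℚ) ^ (t + 1) * r).den : ℝ) * ((b : ℝ) ^ (t + 1) * D))
        ≤ (N : ℝ) * ((((b : ℚ) ^ t * r).den : ℝ) * ((b : ℝ) ^ (t + 1) * D)) := by gcongr
      _ = _ := by ring
  have h0 : e 0 < 1 := by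
    simp only [he, pow_zero, one_mul]
    have hden0 : (0 : ℝ) < r.den := by exact_mod_cast r.den_pos
    rw [le_div_iff₀ (by positivity)] at hr1
    have : (N : ℝ) * (r.den * D) < D * ((N + 1) * r.den) := by nlinarith
    linarith
  have hlarge : ∃ t, 1 ≤ e t := by
    obtain ⟨t, ht⟩ := pow_unbounded_of_one_lt (1 / D) (by linarith : (1 : ℝ) < b)
    refine ⟨t, ?_⟩
    rw [div_lt_iff₀ hD0] at ht
    simp only [he]
    have h1 : (1 : ℝ) ≤ (((b : ℚ) ^ t * r).den : ℝ) := by exact_mod_cast ((b : ℚ) ^ t * r).den_pos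
    have h2 : 1 ≤ (((b : ℚ) ^ t * r).den : ℝ) * ((b : ℝ) ^ t * D) := by nlinarith
    nlinarith
  classical
  obtain ⟨t, ht1, ht2⟩ : ∃ t, e t < 1 ∧ 1 ≤ e (t + 1) := by
    have hf := Nat.find_spec hlarge
    have hpos : Nat.find hlarge ≠ 0 := by
      intro h
      rw [h] at hf
      linarith
    obtain ⟨t, ht⟩ := Nat.exists_eq_succ_of_ne_zero hpos
    refine ⟨t, ?_, ?_⟩
    · have := Nat.find_min hlarge (m := t) (by omega)
      exact not_le.1 this
    · rw [ht] at hf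
      exact hf
  have habs : |(b : ℝ) ^ t * x - (((b : ℚ) ^ t * r : ℚ) : ℝ)| = (b : ℝ) ^ t * D := by
    push_cast
    rw [← mul_sub, abs_mul, abs_of_nonneg (by positivity)]
  refine ⟨t, (b : ℚ) ^ t * r, hden t, ?_, ?_⟩
  · rw [habs]; exact ht1
  · rw [habs]; exact ht2.trans (hstep t)

/-- an integer in a half-open interval of length `q` with a prescribed residue class -/
lemma pick {p : ℤ} {q : ℕ} (hq : 1 ≤ q) (hpq : IsCoprime p (q : ℤ)) (A : ℤ) (u : ℝ) :
    ∃ m z : ℤ, u < m ∧ (m : ℝ) ≤ u + q ∧ m * p = A + z * q := by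
  obtain ⟨a, c, hac⟩ := hpq
  have hq0 : (0 : ℝ) < q := by exact_mod_cast hq
  set f : ℤ := ⌊(u - (A * a : ℤ)) / q⌋ with hf
  refine ⟨A * a + q * (f + 1), -(A * c) + (f + 1) * p, ?_, ?_, ?_⟩
  · have h := Int.lt_floor_add_one ((u - (A * a : ℤ)) / q)
    rw [← hf, div_lt_iff₀ hq0] at h
    push_cast at h ⊢
    linarith
  · have h := Int.floor_le ((u - (A * a : ℤ)) / q)
    rw [← hf, le_div_iff₀ hq0] at h
    push_cast at h ⊢
    linarith
  · linear_combination A * hac

/-- the main step: a multiplier for a number with a good rational approximation -/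
lemma stepB {b N : ℕ} (hb : 2 ≤ b) (hN : 1 ≤ N) {y : ℝ} (hy : Irrational y) {s : ℚ} (hs : s.den ≤ N)
    (h1 : (N : ℝ) * (s.den * |y - s|) < 1) (h2 : 1 ≤ (b : ℝ) * (N * (s.den * |y - s|))) (j : ℕ) :
    ∃ m : ℕ, 1 ≤ m ∧ m ≤ b * N - b + 1 ∧ ∃ z : ℤ, (j : ℝ) ≤ N * (m * y - z) ∧ N * (m * y - z) < j + 1 := by
  have hNR : (1 : ℝ) ≤ N := by exact_mod_cast hN
  have hN0 : (0 : ℝ) < N := by linarith
  have hbR : (2 : ℝ) ≤ b := by exact_mod_cast hb
  obtain ⟨q, hq⟩ : ∃ q, q = s.den := ⟨_, rfl⟩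
  obtain ⟨p, hp⟩ : ∃ p, p = s.num := ⟨_, rfl⟩
  have hq1 : 1 ≤ q := by rw [hq]; exact s.den_pos
  have hqR : (1 : ℝ) ≤ q := by exact_mod_cast hq1
  have hq0 : (0 : ℝ) < q := by linarith
  have hqN : (q : ℝ) ≤ N := by rw [hq]; exact_mod_cast hs
  have hpq : IsCoprime p (q : ℤ) := by
    rw [hq, hp, Int.isCoprime_iff_gcd_eq_one, Int.gcd]
    simpa using s.reduced
  have hsR : (s : ℝ) = p / q := by
    rw [hp, hq]
    exact_mod_cast (Rat.num_div_den s).symm
  -- `δ = q y - p`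
  obtain ⟨δ, hδ⟩ : ∃ δ : ℝ, δ = q * y - p := ⟨_, rfl⟩
  have hqs : (q : ℝ) * (y - s) = δ := by
    rw [hsR, hδ]; field_simp
  have habs : (s.den : ℝ) * |y - s| = |δ| := by
    rw [← hq, ← hqs, abs_mul, abs_of_pos hq0]
  rw [habs] at h1 h2
  have hirr : ∀ c : ℚ, (q : ℝ) * δ ≠ c := by
    intro c hc
    apply hy.ne_rat ((c / q + p) / q)
    push_cast
    rw [← hc, hδ]
    field_simp
    ring
  have hmy : ∀ m : ℤ, ∀ A z : ℤ, m * p = A + z * q → (m : ℝ) * y - z = (A + m * δ) / q := by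
    intro m A z h
    have h' : (m : ℝ) * p = A + z * q := by exact_mod_cast h
    rw [hδ]
    field_simp
    linarith
  have hcast : ((b * N - b + 1 : ℕ) : ℝ) = b * N - b + 1 := by
    have : b ≤ b * N := Nat.le_mul_of_pos_right b (by omega)
    push_cast [Nat.cast_sub this]
    ring
  have hqle : (q : ℝ) < b * N - b + 2 := by nlinarith
  -- finish from an integer `m`
  have fin : ∀ m z : ℤ, 0 < m → (m : ℝ) < b * N - b + 2 → (j : ℝ) ≤ N * (m * y - z) → N * (m * y - z) < j + 1 →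
      ∃ m : ℕ, 1 ≤ m ∧ m ≤ b * N - b + 1 ∧ ∃ z : ℤ, (j : ℝ) ≤ N * (m * y - z) ∧ N * (m * y - z) < j + 1 := by
    intro m z hm0 hm1 h3 h4
    obtain ⟨k, rfl⟩ := Int.eq_ofNat_of_zero_le hm0.le
    rw [Int.cast_natCast] at hm1 h3 h4
    refine ⟨k, by omega, ?_, z, h3, h4⟩
    have h5 : (k : ℝ) < ((b * N - b + 1 : ℕ) : ℝ) + 1 := by rw [hcast]; linarith
    have h6 : k < b * N - b + 1 + 1 := by exact_mod_cast h5
    omega
  set θ : ℝ := q * j / N with hθ
  set w : ℝ := q / N with hw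
  have hNθ : (N : ℝ) * θ = q * j := by rw [hθ]; field_simp
  have hNw : (N : ℝ) * w = q := by rw [hw]; field_simp
  have hw0 : 0 < w := by positivity
  have key : ∀ m A z : ℤ, m * p = A + z * q → θ ≤ A + m * δ → A + m * δ < θ + w →
      (j : ℝ) ≤ N * (m * y - z) ∧ N * (m * y - z) < j + 1 := by
    intro m A z h h3 h4
    rw [hmy m A z h]
    constructor
    · rw [mul_div_assoc', le_div_iff₀ hq0]
      nlinarith
    · rw [mul_div_assoc', div_lt_iff₀ hq0]
      nlinarith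
  rcases lt_trichotomy δ 0 with hneg | hzero | hpos
  · -- `δ < 0`
    obtain ⟨η, hη⟩ : ∃ η, η = -δ := ⟨_, rfl⟩
    have hη0 : 0 < η := by linarith
    have habsη : |δ| = η := by rw [abs_of_neg hneg, hη]
    rw [habsη] at h1 h2
    have hδη : δ = -η := by linarith
    set A1 : ℤ := ⌈θ + w⌉ with hA1
    have hA1a : θ + w ≤ A1 := Int.le_ceil _
    have hA1b : (A1 : ℝ) < θ + w + 1 := Int.ceil_lt_add_one _
    have hqη : q * η < w := by
      rw [hw, lt_div_iff₀ hN0]
      nlinarith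
    by_cases hc : q * η ≤ (A1 - θ - w) + w - 1
    · obtain ⟨m, z, hm1, hm2, hm3⟩ := pick hq1 hpq (A1 - 1) 0
      have hm0 : 0 < m := by exact_mod_cast hm1
      obtain ⟨h3, h4⟩ := key m (A1 - 1) z hm3 (by
        push_cast
        rw [hδη]
        have : (m : ℝ) * η ≤ q * η := by
          apply mul_le_mul_of_nonneg_right _ hη0.le
          linarith
        nlinarith) (by
        push_cast
        rw [hδη]
        have : 0 < (m : ℝ) * η := mul_pos hm1 hη0
        nlinarith)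
      exact fin m z hm0 (by linarith) h3 h4
    · push Not at hc
      obtain ⟨m, z, hm1, hm2, hm3⟩ := pick hq1 hpq A1 ((A1 - θ - w) / η)
      have hD0 : 0 ≤ (A1 - θ - w) / η := div_nonneg (by linarith) hη0.le
      have hm0 : 0 < m := by exact_mod_cast hD0.trans_lt hm1
      have h5 : (A1 - θ - w) < m * η := (div_lt_iff₀ hη0).1 hm1
      have h6 : (m : ℝ) * η ≤ (A1 - θ - w) + q * η := by
        have := mul_le_mul_of_nonneg_right hm2 hη0.le
        rw [add_mul, div_mul_cancel₀ _ hη0.ne'] at this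
        exact this
      obtain ⟨h3, h4⟩ := key m A1 z hm3 (by rw [hδη]; nlinarith) (by rw [hδη]; nlinarith)
      refine fin m z hm0 ?_ h3 h4
      -- the bound
      have h7 : (m : ℝ) * η < 1 - w + 2 * (q * η) := by linarith
      have h8 : (1 - w) ≤ (1 - w) * (b * (N * η)) := by
        have : 0 ≤ 1 - w := by
          rw [sub_nonneg, hw, div_le_one hN0]
          exact hqN
        nlinarith
      have h9 : (1 - w) * (b * (N * η)) = (b * N - b * q) * η := by
        have : w * N = q := by rw [hw]; field_simp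
        linear_combination (-(b * η)) * this
      have h10 : (m : ℝ) * η < (b * N - b * q + 2 * q) * η := by nlinarith
      have h11 : (m : ℝ) < b * N - b * q + 2 * q := lt_of_mul_lt_mul_right h10 hη0.le
      nlinarith
  · exfalso
    apply hirr 0
    rw [hzero]
    simp
  · -- `δ > 0`
    rw [abs_of_pos hpos] at h1 h2
    set A0 : ℤ := ⌊θ⌋ with hA0
    have hA0a : (A0 : ℝ) ≤ θ := Int.floor_le _
    have hA0b : θ < A0 + 1 := Int.lt_floor_add_one _
    have hqδ : q * δ < w := by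
      rw [hw, lt_div_iff₀ hN0]
      nlinarith
    rcases lt_trichotomy (q * δ) ((θ - A0) + w - 1) with hc | hc | hc
    · obtain ⟨m, z, hm1, hm2, hm3⟩ := pick hq1 hpq (A0 + 1) 0
      have hm0 : 0 < m := by exact_mod_cast hm1
      obtain ⟨h3, h4⟩ := key m (A0 + 1) z hm3 (by
        push_cast
        have : 0 < (m : ℝ) * δ := mul_pos hm1 hpos
        nlinarith) (by
        push_cast
        have : (m : ℝ) * δ ≤ q * δ := by
          apply mul_le_mul_of_nonneg_right _ hpos.le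
          linarith
        nlinarith)
      exact fin m z hm0 (by linarith) h3 h4
    · exfalso
      apply hirr ((q * j / N - A0) + q / N - 1)
      push_cast
      rw [hc, hθ, hw]
    · obtain ⟨m, z, hm1, hm2, hm3⟩ := pick hq1 hpq A0 ((θ - A0) / δ)
      have hD0 : 0 ≤ (θ - A0) / δ := div_nonneg (by linarith) hpos.le
      have hm0 : 0 < m := by exact_mod_cast hD0.trans_lt hm1
      have h5 : (θ - A0) < m * δ := (div_lt_iff₀ hpos).1 hm1
      have h6 : (m : ℝ) * δ ≤ (θ - A0) + q * δ := by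
        have := mul_le_mul_of_nonneg_right hm2 hpos.le
        rw [add_mul, div_mul_cancel₀ _ hpos.ne'] at this
        exact this
      obtain ⟨h3, h4⟩ := key m A0 z hm3 (by nlinarith) (by nlinarith)
      refine fin m z hm0 ?_ h3 h4
      have h7 : (m : ℝ) * δ < 1 - w + 2 * (q * δ) := by linarith
      have h8 : (1 - w) ≤ (1 - w) * (b * (N * δ)) := by
        have : 0 ≤ 1 - w := by
          rw [sub_nonneg, hw, div_le_one hN0]
          exact hqN
        nlinarith
      have h9 : (1 - w) * (b * (N * δ)) = (b * N - b * q) * δ := by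
        have : w * N = q := by rw [hw]; field_simp
        linear_combination (-(b * δ)) * this
      have h10 : (m : ℝ) * δ < (b * N - b * q + 2 * q) * δ := by nlinarith
      have h11 : (m : ℝ) < b * N - b * q + 2 * q := lt_of_mul_lt_mul_right h10 hpos.le
      nlinarith

/-- every word of `k` digits occurs infinitely often in a multiple `m α`, `m ≤ b ^ (k + 1) - b + 1` -/
theorem upper {b k : ℕ} (hb : 2 ≤ b) {α : ℝ} (hα : Irrational α) (j : ℕ) (hj : j < b ^ k) :
    ∃ m : ℕ, 1 ≤ m ∧ m ≤ b ^ (k + 1) - b + 1 ∧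
      {n : ℕ | ⌊(m : ℝ) * α * (b : ℝ) ^ n⌋ % ((b ^ k : ℕ) : ℤ) = j}.Infinite := by
  classical
  by_contra hcon
  push Not at hcon
  have hfin : ∀ m : ℕ, ∃ N : ℕ, 1 ≤ m → m ≤ b ^ (k + 1) - b + 1 → ∀ n, N ≤ n →
      ⌊(m : ℝ) * α * (b : ℝ) ^ n⌋ % ((b ^ k : ℕ) : ℤ) ≠ j := by
    intro m
    by_cases hm : 1 ≤ m ∧ m ≤ b ^ (k + 1) - b + 1
    · have h := hcon m hm.1 hm.2
      obtain ⟨B, hB⟩ := h.bddAbove
      refine ⟨B + 1, fun _ _ n hn he => ?_⟩
      have := hB (show n ∈ {n : ℕ | ⌊(m : ℝ) * α * (b : ℝ) ^ n⌋ % ((b ^ k : ℕ) : ℤ) = j} from he)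
      omega
    · exact ⟨0, fun h1 h2 => absurd ⟨h1, h2⟩ hm⟩
  choose Nf hNf using hfin
  set N0 := (Finset.range (b ^ (k + 1) - b + 2)).sup Nf with hN0
  have hno : ∀ m : ℕ, 1 ≤ m → m ≤ b ^ (k + 1) - b + 1 → ∀ n, N0 ≤ n →
      ⌊(m : ℝ) * α * (b : ℝ) ^ n⌋ % ((b ^ k : ℕ) : ℤ) ≠ j := by
    intro m h1 h2 n hn
    exact hNf m h1 h2 n ((Finset.le_sup (f := Nf) (Finset.mem_range.2 (by omega))).trans hn)
  have hirr : ∀ n : ℕ, Irrational ((b : ℝ) ^ n * α) := by
    intro n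
    have : Irrational (((b ^ n : ℕ) : ℝ) * α) := hα.natCast_mul (by positivity)
    simpa using this
  have hNN : 1 ≤ b ^ k := Nat.one_le_pow _ _ (by omega)
  obtain ⟨t, s, hs1, hs2, hs3⟩ := stepA hb hNN (hirr N0)
  have hy : Irrational ((b : ℝ) ^ t * ((b : ℝ) ^ N0 * α)) := by
    have h := hirr (t + N0)
    rw [pow_add, mul_assoc] at h
    exact h
  obtain ⟨m, hm1, hm2, z, hz1, hz2⟩ := stepB hb hNN hy hs1 hs2 hs3 j
  have hm3 : m ≤ b ^ (k + 1) - b + 1 := by rw [pow_succ, mul_comm]; exact hm2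
  apply hno m hm1 hm3 (t + N0 + k) (by omega)
  have hfl : ⌊(m : ℝ) * α * (b : ℝ) ^ (t + N0 + k)⌋ = j + z * ((b ^ k : ℕ) : ℤ) := by
    rw [Int.floor_eq_iff]
    have e : (m : ℝ) * α * (b : ℝ) ^ (t + N0 + k) =
        ((b ^ k : ℕ) : ℝ) * (m * ((b : ℝ) ^ t * ((b : ℝ) ^ N0 * α)) - z) + z * ((b ^ k : ℕ) : ℝ) := by
      push_cast
      rw [pow_add, pow_add]
      ring
    rw [e]
    push_cast at hz1 hz2 ⊢
    constructor <;> linarith
  rw [hfl, Int.add_mul_emod_self_right]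
  exact Int.emod_eq_of_lt (by positivity) (by exact_mod_cast hj)

end Pool.Agent.R471.MW
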