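import Mathlib
/-!
Numbers `α` for which no small multiple `m α` contains the word of `k` digits `b - 1` infinitely often.
-/
set_option autoImplicit false
open Nat

namespace Pool.Agent.R471.MW

/-- the digits of a multiple of Liouville's number -/
lemma floor_liou {b : ℕ} (hb : 2 ≤ b) (W r n : ℕ) (hr1 : 1 ≤ r) (hrW : W ≤ r) (hj : r ! ≤ n) (hj' : n < (r + 1)!) :
    ⌊(W : ℝ) * liouvilleNumber b * (b : ℝ) ^ n⌋ =
      ((W * ∑ i ∈ Finset.range (r + 1), b ^ (n - i !) + W / b ^ ((r + 1)! - n) : ℕ) : ℤ) := by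
  have hbR : (2 : ℝ) ≤ b := by exact_mod_cast hb
  have hb1 : (1 : ℝ) < b := by linarith
  have hb0 : (0 : ℝ) < b := by linarith
  set K := (r + 1)! - n with hK
  have hK1 : 1 ≤ K := by omega
  set S : ℕ := ∑ i ∈ Finset.range (r + 1), b ^ (n - i !) with hS
  have hfac : ∀ i ∈ Finset.range (r + 1), i ! ≤ n := fun i hi =>
    (Nat.factorial_le (Nat.lt_succ_iff.1 (Finset.mem_range.1 hi))).trans hj
  have hpart : LiouvilleNumber.partialSum b r * (b : ℝ) ^ n = (S : ℝ) := by
    rw [LiouvilleNumber.partialSum, Finset.sum_mul, hS]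
    push_cast
    refine Finset.sum_congr rfl fun i hi => ?_
    rw [pow_sub₀ (b : ℝ) (by positivity) (hfac i hi)]
    ring
  have hsum : liouvilleNumber (b : ℝ) = LiouvilleNumber.partialSum b r + 1 / (b : ℝ) ^ (r + 1)! +
      LiouvilleNumber.remainder b (r + 1) := by
    rw [← LiouvilleNumber.partialSum_add_remainder hb1 (r + 1),
      LiouvilleNumber.partialSum_succ]
  set ε : ℝ := W * LiouvilleNumber.remainder b (r + 1) * (b : ℝ) ^ n with hε
  have hε0 : 0 ≤ ε := by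
    have := LiouvilleNumber.remainder_pos hb1 (r + 1)
    positivity
  have hε1 : ε < 1 / (b : ℝ) ^ K := by
    have h1 := LiouvilleNumber.remainder_lt' (r + 1) hb1
    have h2 : LiouvilleNumber.remainder b (r + 1) ≤ 2 / (b : ℝ) ^ (r + 2)! := by
      refine h1.le.trans ?_
      rw [show r + 1 + 1 = r + 2 by ring, ← mul_one_div (2 : ℝ)]
      gcongr
      have h3 : (1 : ℝ) / b ≤ 1 / 2 := div_le_div_of_nonneg_left (by norm_num) (by norm_num) hbR
      calc (1 - 1 / (b : ℝ))⁻¹ ≤ (1 / 2)⁻¹ := inv_anti₀ (by norm_num) (by linarith)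
        _ = 2 := by norm_num
    have h3 : (r + 2)! = (r + 1)! + (r + 1) * (r + 1)! := by
      rw [show r + 2 = (r + 1) + 1 by ring, Nat.factorial_succ (r + 1)]
      ring
    have h4 : 2 * W < (r + 1) * (r + 1)! := by
      have h5 : 2 ! ≤ (r + 1)! := Nat.factorial_le (by omega)
      have h6 : 2 ≤ (r + 1)! := h5
      nlinarith
    have h5 : (r + 1) * (r + 1)! < b ^ ((r + 1) * (r + 1)!) := Nat.lt_pow_self (by omega)
    have h6 : ε ≤ W * (2 / (b : ℝ) ^ (r + 2)!) * (b : ℝ) ^ n := by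
      rw [hε]
      gcongr
    refine h6.trans_lt ?_
    rw [lt_div_iff₀ (by positivity)]
    have h7 : (W : ℝ) * (2 / (b : ℝ) ^ (r + 2)!) * (b : ℝ) ^ n * (b : ℝ) ^ K = W * 2 / (b : ℝ) ^ ((r + 1) * (r + 1)!) := by
      have h8 : (b : ℝ) ^ n * (b : ℝ) ^ K = (b : ℝ) ^ (r + 1)! := by
        rw [← pow_add]
        congr 1
        omega
      rw [h3, pow_add, mul_assoc, h8]
      field_simp
    rw [h7, div_lt_one (by positivity)]
    have h9 : 2 * W < b ^ ((r + 1) * (r + 1)!) := h4.trans h5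
    have h10 : (2 : ℝ) * W < (b : ℝ) ^ ((r + 1) * (r + 1)!) := by exact_mod_cast h9
    linarith
  have hdecomp : (W : ℝ) * liouvilleNumber b * (b : ℝ) ^ n = (W * S : ℕ) + (W / (b : ℝ) ^ K + ε) := by
    rw [hsum, hε]
    push_cast
    rw [← hpart]
    have h9 : (1 : ℝ) / (b : ℝ) ^ (r + 1)! * (b : ℝ) ^ n = 1 / (b : ℝ) ^ K := by
      rw [div_mul_eq_mul_div, one_mul, div_eq_div_iff (by positivity) (by positivity), one_mul, ← pow_add]
      congr 1
      omega
    have h10 : (W : ℝ) / (b : ℝ) ^ K = W * (1 / (b : ℝ) ^ (r + 1)! * (b : ℝ) ^ n) := by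
      rw [h9]; ring
    rw [h10]
    ring
  have hfloor : ⌊(W : ℝ) / (b : ℝ) ^ K + ε⌋ = ((W / b ^ K : ℕ) : ℤ) := by
    rw [Int.floor_eq_iff]
    have hp : (0 : ℝ) < (b : ℝ) ^ K := by positivity
    constructor
    · have h1 : ((W / b ^ K : ℕ) : ℝ) ≤ (W : ℝ) / ((b ^ K : ℕ) : ℝ) := Nat.cast_div_le
      rw [Int.cast_natCast]
      push_cast at h1
      push_cast
      linarith
    · have h1 : W + 1 ≤ (W / b ^ K + 1) * b ^ K := by
        have := Nat.lt_div_mul_add (a := W) (b := b ^ K) (by positivity)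
        nlinarith
      have h2 : ((W : ℝ) + 1) ≤ ((W / b ^ K : ℕ) + 1) * (b : ℝ) ^ K := by exact_mod_cast h1
      have h3 : (W : ℝ) / (b : ℝ) ^ K + 1 / (b : ℝ) ^ K ≤ ((W / b ^ K : ℕ) : ℝ) + 1 := by
        rw [← add_div, div_le_iff₀ hp]
        exact h2
      rw [Int.cast_natCast]
      linarith
  rw [hdecomp, Int.floor_natCast_add, hfloor]
  push_cast
  rfl

/-- no block of `k` digits `b - 1` in `m v` -/
lemma no_block {b c v i k m s : ℕ} (hb : 2 ≤ b) (hc1 : 1 ≤ c) (hcb : c < b) (hcv : c * v = b ^ i)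
    (hm : m < c * (b ^ k - 1)) : m * v / b ^ s % b ^ k ≠ b ^ k - 1 := by
  intro h
  have hbk : 0 < b ^ k := by positivity
  have hbs : 0 < b ^ s := by positivity
  obtain ⟨u, hu⟩ : ∃ u, u = m * v / b ^ s / b ^ k := ⟨_, rfl⟩
  obtain ⟨r, hr⟩ : ∃ r, r = m * v % b ^ s := ⟨_, rfl⟩
  have hrs : r < b ^ s := by rw [hr]; exact Nat.mod_lt _ hbs
  have h1 : m * v / b ^ s + 1 = b ^ k * (u + 1) := by
    have := Nat.div_add_mod (m * v / b ^ s) (b ^ k)
    rw [h, ← hu] at this
    rw [← this, mul_add]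
    omega
  have h2 : m * v = b ^ s * (m * v / b ^ s) + r := by
    rw [hr]; exact (Nat.div_add_mod _ _).symm
  -- `m v + b ^ s = b ^ s * (b ^ k * (u + 1)) + r`
  have h3 : m * v + b ^ s = b ^ s * (b ^ k * (u + 1)) + r := by
    rw [← h1, mul_add, mul_one]
    omega
  have h4 : m * b ^ i + c * b ^ s = c * (b ^ s * (b ^ k * (u + 1))) + c * r := by
    rw [← hcv]
    calc m * (c * v) + c * b ^ s = c * (m * v + b ^ s) := by ring
      _ = _ := by rw [h3]; ring
  rcases le_or_gt i s with his | his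
  · -- `s ≥ i`
    obtain ⟨d, rfl⟩ := Nat.exists_eq_add_of_le his
    have h5 : c * b ^ (i + d) * b ^ k ≤ c * (b ^ (i + d) * (b ^ k * (u + 1))) := by
      have : b ^ k ≤ b ^ k * (u + 1) := Nat.le_mul_of_pos_right _ (by omega)
      calc c * b ^ (i + d) * b ^ k = c * (b ^ (i + d) * b ^ k) := by ring
        _ ≤ _ := by gcongr
    have h6 : c * b ^ (i + d) * (b ^ k - 1) ≤ m * b ^ i := by
      rw [Nat.mul_sub, mul_one]
      omega
    have h7 : c * (b ^ k - 1) * b ^ i ≤ m * b ^ i := by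
      refine le_trans ?_ h6
      have : b ^ i ≤ b ^ (i + d) := Nat.pow_le_pow_right (by omega) (by omega)
      calc c * (b ^ k - 1) * b ^ i ≤ c * (b ^ k - 1) * b ^ (i + d) := by gcongr
        _ = _ := by ring
    have h8 := Nat.le_of_mul_le_mul_right h7 (by positivity)
    omega
  · -- `s < i`
    obtain ⟨d, rfl⟩ : ∃ d, i = s + (d + 1) := ⟨i - s - 1, by omega⟩
    have h5 : b ^ s ∣ c * r := by
      have e1 : b ^ s ∣ m * b ^ (s + (d + 1)) + c * b ^ s :=
        dvd_add ⟨m * b ^ (d + 1), by rw [pow_add]; ring⟩ ⟨c, by ring⟩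
      rw [h4] at e1
      exact (Nat.dvd_add_right ⟨c * (b ^ k * (u + 1)), by ring⟩).1 e1
    obtain ⟨e, he⟩ := h5
    have hec : e < c := by
      have : b ^ s * e < b ^ s * c := by
        rw [← he, mul_comm (b ^ s) c]
        exact Nat.mul_lt_mul_of_pos_left hrs hc1
      exact Nat.lt_of_mul_lt_mul_left this
    rw [he] at h4
    have h6 : b ^ s * (m * b ^ (d + 1) + c) = b ^ s * (c * (b ^ k * (u + 1)) + e) := by
      rw [pow_add] at h4
      linarith
    have h7 := Nat.eq_of_mul_eq_mul_left hbs h6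
    -- modulo `b`
    have hk : 1 ≤ k := by
      rcases Nat.eq_zero_or_pos k with h0 | h0
      · rw [h0] at hm; simp at hm
      · exact h0
    have h8 : b ∣ m * b ^ (d + 1) := Dvd.dvd.mul_left (dvd_pow_self b (by omega)) m
    have h9 : b ∣ c * (b ^ k * (u + 1)) := ((dvd_pow_self b (by omega)).mul_right (u + 1)).mul_left c
    have h10 : m * b ^ (d + 1) + (c - e) = c * (b ^ k * (u + 1)) := by omega
    have h11 : b ∣ c - e := by
      rw [← h10] at h9
      exact (Nat.dvd_add_right h8).1 h9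
    have h12 := Nat.le_of_dvd (by omega) h11
    omega

lemma exists_r {n R : ℕ} (hn : (R + 1)! ≤ n) : ∃ r, R < r ∧ r ! ≤ n ∧ n < (r + 1)! := by
  have hex : ∃ k, n < (k + 1)! := ⟨n, (Nat.lt_succ_self n).trans_le (Nat.self_le_factorial _)⟩
  classical
  have hlt : R < Nat.find hex := by
    rw [Nat.lt_find_iff]
    intro k hk h
    have : (k + 1)! ≤ (R + 1)! := Nat.factorial_le (by omega)
    omega
  refine ⟨Nat.find hex, hlt, ?_, Nat.find_spec hex⟩
  have := Nat.find_min hex (Nat.sub_lt (by omega : 0 < Nat.find hex) one_pos)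
  rw [Nat.sub_add_cancel (show 1 ≤ Nat.find hex by omega)] at this
  omega

/-- the digit blocks of `m α` for `α = v L` -/
lemma no_word {b c v i k m : ℕ} (hb : 2 ≤ b) (hk : 1 ≤ k) (hc1 : 1 ≤ c) (hcb : c < b) (hcv : c * v = b ^ i)
    (hm : m < c * (b ^ k - 1)) (n : ℕ) (hn : (m * v + k + 3)! ≤ n) :
    ⌊(m : ℝ) * ((v : ℝ) * liouvilleNumber b) * (b : ℝ) ^ n⌋ % ((b ^ k : ℕ) : ℤ) ≠ ((b ^ k - 1 : ℕ) : ℤ) := by
  obtain ⟨r, hr, hr1, hr2⟩ := exists_r (n := n) (R := m * v + k + 2) hn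
  obtain ⟨W, hW⟩ : ∃ W, W = m * v := ⟨_, rfl⟩
  rw [← hW] at hr
  have e : (m : ℝ) * ((v : ℝ) * liouvilleNumber b) * (b : ℝ) ^ n = (W : ℝ) * liouvilleNumber b * (b : ℝ) ^ n := by
    rw [hW]; push_cast; ring
  rw [e, floor_liou hb W r n (by omega) (by omega) hr1 hr2]
  have hblock : ∀ s, W / b ^ s % b ^ k ≠ b ^ k - 1 := fun s => by
    rw [hW]; exact no_block hb hc1 hcb hcv hm
  intro h
  have h' : (W * ∑ i ∈ Finset.range (r + 1), b ^ (n - i !) + W / b ^ ((r + 1)! - n)) % b ^ k = b ^ k - 1 := by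
    exact_mod_cast h
  rw [Finset.sum_range_succ, mul_add] at h'
  have hdiv : b ^ k ∣ W * ∑ i ∈ Finset.range r, b ^ (n - i !) := by
    apply Dvd.dvd.mul_left
    refine Finset.dvd_sum fun i hi => pow_dvd_pow b ?_
    have hi' := Finset.mem_range.1 hi
    have h1 : i ! ≤ (r - 1)! := Nat.factorial_le (by omega)
    have h2 : r ! = r * (r - 1)! := (Nat.mul_factorial_pred (by omega)).symm
    have h3 : (r - 1)! + k ≤ r * (r - 1)! := by
      have h4 : 1 ≤ (r - 1)! := Nat.factorial_pos _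
      obtain ⟨r', hr'⟩ : ∃ r', r = r' + 1 := ⟨r - 1, by omega⟩
      have h5 : k ≤ r' := by omega
      rw [hr'] at h4 ⊢
      simp only [Nat.add_sub_cancel] at h4 ⊢
      nlinarith
    omega
  obtain ⟨D, hD⟩ := hdiv
  rw [hD, add_assoc, Nat.mul_add_mod] at h'
  rcases le_or_gt (r ! + k) n with hcase | hcase
  · -- far from the last one
    have h1 : b ^ k ∣ W * b ^ (n - r !) := Dvd.dvd.mul_left (pow_dvd_pow b (by omega)) W
    obtain ⟨D', hD'⟩ := h1
    rw [hD', Nat.mul_add_mod] at h'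
    exact hblock _ h'
  · have hK : W < b ^ ((r + 1)! - n) := by
      have h1 : (r + 1)! = (r + 1) * r ! := Nat.factorial_succ r
      have h2 : r ≤ r ! := Nat.self_le_factorial r
      have h3 : W ≤ (r + 1)! - n := by
        rw [h1]
        have h4 : r ! + r ≤ (r + 1) * r ! := by
          have : 1 ≤ r ! := Nat.factorial_pos _
          nlinarith
        omega
      exact h3.trans_lt (Nat.lt_pow_self (by omega))
    rw [Nat.div_eq_of_lt hK, add_zero] at h'
    rcases Nat.eq_or_lt_of_le hr1 with h0 | h0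
    · rw [h0, Nat.sub_self, pow_zero, mul_one] at h'
      have := hblock 0
      rw [pow_zero, Nat.div_one] at this
      exact this h'
    · have h1 : b ∣ W * b ^ (n - r !) := Dvd.dvd.mul_left (dvd_pow_self b (by omega)) W
      have h2 : b ∣ b ^ k := dvd_pow_self b (by omega)
      have h3 : b ∣ W * b ^ (n - r !) % b ^ k := (Nat.dvd_mod_iff h2).2 h1
      rw [h'] at h3
      have h4 : b ∣ 1 := by
        have h5 : b ^ k - 1 + 1 = b ^ k := Nat.sub_add_cancel (Nat.one_le_pow _ _ (by omega))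
        rw [← h5] at h2
        exact (Nat.dvd_add_right h3).1 h2
      have := Nat.le_of_dvd one_pos h4
      omega

/-- the lower bound -/
theorem lower {b k c : ℕ} (hb : 2 ≤ b) (hk : 1 ≤ k) (hc1 : 1 ≤ c) (hcb : c < b) (hc : ∃ i, c ∣ b ^ i) :
    ∃ α : ℝ, 0 < α ∧ Irrational α ∧ ∀ m : ℕ, m < c * (b ^ k - 1) →
      {n : ℕ | ⌊(m : ℝ) * α * (b : ℝ) ^ n⌋ % ((b ^ k : ℕ) : ℤ) = ((b ^ k - 1 : ℕ) : ℤ)}.Finite := by
  obtain ⟨i, v, hv⟩ := hc
  have hv0 : v ≠ 0 := by
    rintro rfl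
    have : 0 < b ^ i := by positivity
    omega
  have hL : Irrational (liouvilleNumber (b : ℝ)) := (liouville_liouvilleNumber hb).irrational
  have hLpos : 0 < liouvilleNumber (b : ℝ) := by
    have h1 : (1 : ℝ) < b := by exact_mod_cast (by omega : 1 < b)
    have h2 := LiouvilleNumber.partialSum_add_remainder h1 0
    have h3 := LiouvilleNumber.remainder_pos h1 0
    have h4 : 0 < LiouvilleNumber.partialSum (b : ℝ) 0 := by
      simp [LiouvilleNumber.partialSum]
      omega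
    linarith
  refine ⟨(v : ℝ) * liouvilleNumber b, by positivity, hL.natCast_mul hv0, fun m hm => ?_⟩
  refine (Set.finite_lt_nat (m * v + k + 3)!).subset fun n hn => ?_
  by_contra hcon
  rw [Set.mem_setOf_eq, not_lt] at hcon
  exact no_word hb hk hc1 hcb hv.symm hm n hcon hn

end Pool.Agent.R471.MW
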