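import Pool.Agent.R471.PalShort
import Pool.Agent.W89.PW.Count
/-!
Palindromes with a prescribed initial block of digits: the digit facts and the count.
-/
set_option autoImplicit false

namespace Pool.Agent.R471.PShort

open Finset Filter Topology
open Pool.Agent.W89.PW
open Pool.Agent.W571.PW.Dig (dg pv_eq)
open Pool.Agent.H181R5.PBT9 (dgl dgl_lt dgl_L pvl pvl_eq ofDigits_map_range)

variable {b : ℕ}

/-- the inner digits of the palindrome -/
def inn (b L : ℕ) (d : Fin (L + 1) → Fin b) : List ℕ :=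
  (List.range (2 * L + 1)).map (fun j => dgl b 1 (L + 1) d (Nat.dist j L))

lemma inn_length (L : ℕ) (d : Fin (L + 1) → Fin b) : (inn b L d).length = 2 * L + 1 := by simp [inn]

lemma inn_lt (hb : 1 < b) (L : ℕ) (d : Fin (L + 1) → Fin b) : ∀ x ∈ inn b L d, x < b := by
  intro x hx
  rw [inn, List.mem_map] at hx
  obtain ⟨i, _, rfl⟩ := hx
  exact dgl_lt hb _ _ _

lemma inn_reverse (L : ℕ) (d : Fin (L + 1) → Fin b) : (inn b L d).reverse = inn b L d := by
  unfold inn
  apply List.ext_getElem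
  · simp
  · intro i h1 h2
    have h3 : i < 2 * L + 1 := by simpa using h2
    rw [List.getElem_reverse]
    simp only [List.getElem_map, List.getElem_range, List.length_map, List.length_range]
    congr 1
    unfold Nat.dist
    omega

lemma pvl_inn (L : ℕ) (d : Fin (L + 1) → Fin b) :
    pvl b 1 (L + 1) d = 1 + b * Nat.ofDigits b (inn b L d) + b ^ (2 * L + 2) := by
  rw [pvl_eq 1 (L + 1) (by omega), inn, ofDigits_map_range,
    show 2 * (L + 1) + 1 = (2 * L + 1) + 1 + 1 by ring, sum_range_succ, sum_range_succ']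
  have h0 : Nat.dist 0 (L + 1) = L + 1 := by unfold Nat.dist; omega
  have h1 : Nat.dist (2 * L + 1 + 1) (L + 1) = L + 1 := by unfold Nat.dist; omega
  rw [h0, h1, dgl_L, mul_sum, pow_zero]
  have h2 : ∀ i ∈ range (2 * L + 1), dgl b 1 (L + 1) d (Nat.dist (i + 1) (L + 1)) * b ^ (i + 1) =
      b * (dgl b 1 (L + 1) d (Nat.dist i L) * b ^ i) := by
    intro i _
    have h3 : Nat.dist (i + 1) (L + 1) = Nat.dist i L := by unfold Nat.dist; omega
    rw [h3, pow_succ]
    ring
  rw [sum_congr rfl h2]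
  ring

/-- the palindrome with initial block `w` -/
def nvl (b L w : ℕ) (d : Fin (L + 1) → Fin b) : ℕ :=
  Nat.ofDigits b ((Nat.digits b w).reverse ++ (inn b L d ++ Nat.digits b w))

lemma nvl_split {K w : ℕ} (hK : (Nat.digits b w).length = K + 1) (L : ℕ) (d : Fin (L + 1) → Fin b) :
    nvl b L w d = Nat.ofDigits b (Nat.digits b w).reverse + b ^ (K + 1) * Nat.ofDigits b (inn b L d) +
      b ^ (K + 2 * L + 2) * w := by
  unfold nvl
  rw [Nat.ofDigits_append, Nat.ofDigits_append, Nat.ofDigits_digits, List.length_reverse, hK, inn_length]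
  ring

lemma nvl_eq {K w : ℕ} (hK : (Nat.digits b w).length = K + 1) (L : ℕ) (d : Fin (L + 1) → Fin b) :
    nvl b L w d + b ^ K * (1 + b ^ (2 * L + 2)) = Nat.ofDigits b (Nat.digits b w).reverse +
      b ^ K * pvl b 1 (L + 1) d + b ^ (K + 2 * L + 2) * w := by
  rw [nvl_split hK, pvl_inn]
  ring

lemma dig_len (hb : 1 < b) {K w : ℕ} (h1 : b ^ K ≤ w) (h2 : w < b ^ (K + 1)) :
    (Nat.digits b w).length = K + 1 := by
  apply le_antisymm
  · exact (Nat.digits_length_le_iff hb w).2 h2
  · exact (Nat.lt_digits_length_iff hb w).2 h1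

lemma all_lt (hb : 1 < b) (L w : ℕ) (d : Fin (L + 1) → Fin b) :
    ∀ x ∈ (Nat.digits b w).reverse ++ (inn b L d ++ Nat.digits b w), x < b := by
  intro x hx
  rw [List.mem_append, List.mem_append, List.mem_reverse] at hx
  rcases hx with h | h | h
  · exact Nat.digits_lt_base hb h
  · exact inn_lt hb L d x h
  · exact Nat.digits_lt_base hb h

lemma nvl_digits (hb : 1 < b) {w : ℕ} (hw : w ≠ 0) (L : ℕ) (d : Fin (L + 1) → Fin b) :
    Nat.digits b (nvl b L w d) = (Nat.digits b w).reverse ++ (inn b L d ++ Nat.digits b w) := by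
  unfold nvl
  apply Nat.digits_ofDigits b hb _ (all_lt hb L w d)
  intro h
  have hne : Nat.digits b w ≠ [] := Nat.digits_ne_nil_iff_ne_zero.2 hw
  have hne2 : inn b L d ++ Nat.digits b w ≠ [] := by simp [hne]
  rw [List.getLast_append_of_ne_nil _ hne2, List.getLast_append_of_ne_nil _ hne]
  exact Nat.getLast_digit_ne_zero b hw

lemma nvl_pal (hb : 1 < b) {w : ℕ} (hw : w ≠ 0) (L : ℕ) (d : Fin (L + 1) → Fin b) :
    (Nat.digits b (nvl b L w d)).reverse = Nat.digits b (nvl b L w d) := by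
  rw [nvl_digits hb hw, List.reverse_append, List.reverse_append, List.reverse_reverse, inn_reverse,
    List.append_assoc]

lemma nvl_lt (hb : 1 < b) {K w : ℕ} (hK : (Nat.digits b w).length = K + 1) (L : ℕ) (d : Fin (L + 1) → Fin b) :
    nvl b L w d < b ^ (2 * (L + K + 1) + 1) := by
  unfold nvl
  have h := Nat.ofDigits_lt_base_pow_length hb (all_lt hb L w d)
  rw [List.length_append, List.length_append, List.length_reverse, hK, inn_length] at h
  rwa [show K + 1 + (2 * L + 1 + (K + 1)) = 2 * (L + K + 1) + 1 by ring] at h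

lemma nvl_div (hb : 1 < b) {K w : ℕ} (hK : (Nat.digits b w).length = K + 1) (L : ℕ) (d : Fin (L + 1) → Fin b) :
    nvl b L w d / b ^ (K + 2 * L + 2) = w := by
  have h1 : ∀ x ∈ (Nat.digits b w).reverse ++ inn b L d, x < b := by
    intro x hx
    rw [List.mem_append, List.mem_reverse] at hx
    rcases hx with h | h
    · exact Nat.digits_lt_base hb h
    · exact inn_lt hb L d x h
  have h := Nat.ofDigits_lt_base_pow_length hb h1
  rw [List.length_append, List.length_reverse, hK, inn_length, Nat.ofDigits_append, List.length_reverse, hK] at h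
  rw [show K + 1 + (2 * L + 1) = K + 2 * L + 2 by ring] at h
  rw [nvl_split hK, Nat.add_mul_div_left _ _ (by positivity), Nat.div_eq_of_lt h, zero_add]

/-- modulo `b` the palindrome is its leading digit -/
lemma nvl_mod (hb : 1 < b) {K w : ℕ} (h1 : b ^ K ≤ w) (h2 : w < b ^ (K + 1)) (L : ℕ) (d : Fin (L + 1) → Fin b) :
    ∃ k, nvl b L w d = w / b ^ K + b * k := by
  have hK := dig_len hb h1 h2
  have hne : Nat.digits b w ≠ [] := by
    intro h
    rw [h] at hK
    simp at hK
  have hlast : (Nat.digits b w).getLast hne = w / b ^ K := by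
    rw [List.getLast_eq_getElem]
    have h3 := Nat.getD_digits w K (b := b) (by omega)
    rw [List.getD_eq_getElem _ _ (by omega)] at h3
    have h4 : w / b ^ K < b := by
      rw [Nat.div_lt_iff_lt_mul (by positivity)]
      rwa [pow_succ, mul_comm] at h2
    rw [Nat.mod_eq_of_lt h4] at h3
    rw [← h3]
    congr 1
    omega
  have hrev : (Nat.digits b w).reverse = (Nat.digits b w).getLast hne :: (Nat.digits b w).dropLast.reverse := by
    conv_lhs => rw [← List.dropLast_append_getLast hne]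
    rw [List.reverse_append]
    rfl
  refine ⟨Nat.ofDigits b ((Nat.digits b w).dropLast.reverse ++ (inn b L d ++ Nat.digits b w)), ?_⟩
  unfold nvl
  rw [hrev, List.cons_append, Nat.ofDigits_cons, hlast]

lemma nvl_coprime {s t : ℕ} (hb : 3 ≤ b) (hs : 1 ≤ s) (hst' : s ≤ t) (hst : s + t = b + 1) {K w : ℕ}
    (h1 : b ^ K ≤ w) (h2 : w < b ^ (K + 1)) (hc : (w / b ^ K).Coprime b) (L : ℕ) (m : Fin L → Fin s × Fin t) :
    (nvl b L w (dg b s t L (by omega) hst m)).Coprime (2 * b) := by
  have hb1 : 1 < b := by omega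
  set n := nvl b L w (dg b s t L hb1 hst m) with hn
  have hcb : n.Coprime b := by
    obtain ⟨k, hk⟩ := nvl_mod hb1 h1 h2 L (dg b s t L hb1 hst m)
    rw [← hn] at hk
    rw [hk, Nat.coprime_add_mul_left_left]
    exact hc
  rw [Nat.coprime_mul_iff_right]
  refine ⟨?_, hcb⟩
  rcases Nat.even_or_odd b with he | ho
  · exact Nat.Coprime.coprime_dvd_right he.two_dvd hcb
  · have hK := dig_len hb1 h1 h2
    have h3 := nvl_eq hK L (dg b s t L hb1 hst m)
    rw [← hn, ← pv_eq hb1 hst m] at h3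
    have hpv : Odd (pv b s t L m) := by
      have h4 := ((Pool.Agent.W571.PW.Dig.main b s t L hb (by omega) hst' hst).1 m).2.2.2
      rw [← Nat.coprime_two_right]
      exact Nat.Coprime.coprime_dvd_right (dvd_mul_right 2 b) h4
    rw [Nat.coprime_two_right]
    have hb2 : b % 2 = 1 := Nat.odd_iff.1 ho
    have hmod : ∀ l : List ℕ, Nat.ofDigits b l ≡ l.sum [MOD 2] := by
      intro l
      have h5 := Nat.ofDigits_modEq' b 1 2 (by rw [Nat.ModEq, hb2]) l
      rwa [Nat.ofDigits_one] at h5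
    have hrev : Nat.ofDigits b (Nat.digits b w).reverse ≡ w [MOD 2] := by
      refine (hmod _).trans ?_
      rw [List.sum_reverse]
      have h6 := hmod (Nat.digits b w)
      rw [Nat.ofDigits_digits] at h6
      exact h6.symm
    generalize Nat.ofDigits b (Nat.digits b w).reverse = R0 at h3 hrev
    rw [← ZMod.natCast_eq_natCast_iff] at hrev
    rw [← ZMod.natCast_eq_one_iff_odd] at ho hpv ⊢
    have h7 := congrArg (Nat.cast : ℕ → ZMod 2) h3
    push_cast at h7
    rw [ho, hpv, hrev] at h7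
    simp only [one_pow, one_mul] at h7
    have h8 : (1 + 1 : ZMod 2) = 0 := by decide
    rw [h8, add_zero] at h7
    rw [h7]
    have h9 : ∀ x : ZMod 2, x + 1 + x = 1 := by decide
    exact h9 _

/-- divisibility by a modulus prime to `2 b` is a congruence for `pv` -/
lemma nvl_dvd {s t : ℕ} (hb : 1 < b) (hst : s + t = b + 1) {K w : ℕ}
    (hK : (Nat.digits b w).length = K + 1) (L : ℕ) :
    ∃ u : ℕ → ℕ, ∀ q : ℕ, q.Coprime (2 * b) → ∀ m : Fin L → Fin s × Fin t,
      q ∣ nvl b L w (dg b s t L hb hst m) ↔ pv b s t L m ≡ u q [MOD q] := by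
  have h3 : ∀ m : Fin L → Fin s × Fin t, nvl b L w (dg b s t L hb hst m) + b ^ K * (1 + b ^ (2 * L + 2)) =
      Nat.ofDigits b (Nat.digits b w).reverse + b ^ K * pv b s t L m + b ^ (K + 2 * L + 2) * w := by
    intro m
    rw [pv_eq hb hst m]
    exact nvl_eq hK L (dg b s t L hb hst m)
  generalize Nat.ofDigits b (Nat.digits b w).reverse = R0 at h3
  refine ⟨fun q => ((1 + (b : ZMod q) ^ (2 * L + 2) - (b : ZMod q) ^ (2 * L + 2) * (w : ZMod q) -
    ((b : ZMod q) ^ K)⁻¹ * (R0 : ZMod q) : ZMod q)).val, ?_⟩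
  intro q hq m
  have hq0 : q ≠ 0 := by
    rintro rfl
    rw [Nat.coprime_zero_left] at hq
    omega
  have : NeZero q := ⟨hq0⟩
  have hqb : b.Coprime q := (Nat.Coprime.coprime_dvd_right (dvd_mul_left b 2) hq).symm
  have hinv : ((b : ZMod q) ^ K) * ((b : ZMod q) ^ K)⁻¹ = 1 := by
    have h := ZMod.coe_mul_inv_eq_one (b ^ K) (Nat.Coprime.pow_left K hqb)
    push_cast at h
    exact h
  have h4 := congrArg (Nat.cast : ℕ → ZMod q) (h3 m)
  rw [← ZMod.natCast_eq_zero_iff, ← ZMod.natCast_eq_natCast_iff, ZMod.natCast_val, ZMod.cast_id]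
  push_cast at h4
  set X : ZMod q := ((nvl b L w (dg b s t L hb hst m) : ℕ) : ZMod q) with hX
  set Y : ZMod q := ((pv b s t L m : ℕ) : ZMod q) with hY
  set B : ZMod q := (b : ZMod q) ^ K with hB
  have e1 : (b : ZMod q) ^ (K + 2 * L + 2) = B * (b : ZMod q) ^ (2 * L + 2) := by
    rw [hB, ← pow_add]
    congr 1
  rw [e1] at h4
  constructor
  · intro h0
    rw [h0] at h4
    have h5 : B⁻¹ * (0 + B * (1 + (b : ZMod q) ^ (2 * L + 2))) =
      B⁻¹ * (R0 + B * Y + B * (b : ZMod q) ^ (2 * L + 2) * w) := by rw [h4]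
    linear_combination (-1) * h5 + (1 + (b : ZMod q) ^ (2 * L + 2) - Y - (b : ZMod q) ^ (2 * L + 2) * w) * hinv
  · intro h0
    rw [h0] at h4
    linear_combination h4 - R0 * hinv

end Pool.Agent.R471.PShort
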