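import Pool.Agent.R471.PalShortDig
/-!
Palindromes with a prescribed initial block of digits: the final count.
-/
set_option autoImplicit false

namespace Pool.Agent.R471.PShort

open Finset Filter Topology
open Pool.Agent.W89.PW
open Pool.Agent.W571.PW.Dig (dg pv_eq)

variable {b : ℕ}

lemma img_card {s t : ℕ} (hb : 1 < b) (hst : s + t = b + 1) {K w : ℕ}
    (hK : (Nat.digits b w).length = K + 1) (L : ℕ) (G : Finset (Fin L → Fin s × Fin t)) :
    (G.image (pv b s t L)).card ≤ (G.image (fun m => nvl b L w (dg b s t L hb hst m))).card := by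
  classical
  have hsub : G.image (pv b s t L) ⊆ (G.image (fun m => nvl b L w (dg b s t L hb hst m))).image
      (fun x => (x + b ^ K * (1 + b ^ (2 * L + 2)) - Nat.ofDigits b (Nat.digits b w).reverse -
        b ^ (K + 2 * L + 2) * w) / b ^ K) := by
    intro x hx
    rw [mem_image] at hx
    obtain ⟨m, hm, rfl⟩ := hx
    rw [mem_image]
    refine ⟨nvl b L w (dg b s t L hb hst m), mem_image_of_mem _ hm, ?_⟩
    have h := nvl_eq hK L (dg b s t L hb hst m)
    rw [← pv_eq hb hst m] at h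
    rw [h, add_assoc, Nat.add_sub_cancel_left, Nat.add_sub_cancel]
    exact Nat.mul_div_cancel_left _ (by positivity)
  exact (card_le_card hsub).trans card_image_le

/-- palindromes with `2 N + 1` digits, prescribed initial block `w` of `K + 1` digits and few prime factors -/
theorem shortN {s t r : ℕ} (hb : 3 ≤ b) (hs : 2 ≤ s) (hst : s ≤ t) (hbst : s + t = b + 1) {κ lam θ : ℝ}
    (hκ0 : 0 < κ) (hκ : (b : ℝ) ^ κ * HH s t < 1) (hm4 : (b : ℝ) * m4 s t < 1) (hl0 : 0 < lam) (hl1 : lam ≤ 1)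
    (hlam : lam * (1174 / 1000) < 994 / 1000) (hθ0 : 0 ≤ θ) (hθ1 : θ < 1)
    (hr : 1 / lam + 88 / (43 * κ * (1 - θ)) < r + 1)
    {B η : ℝ} (hB : 1 ≤ B) (hBE : B < ((s : ℝ) * t) ^ 2 / (Eset s t).card) (hη : η < κ / 6) :
    ∀ᶠ N : ℕ in atTop, ∀ K : ℕ, (K : ℝ) ≤ θ * N → ∀ w : ℕ, b ^ K ≤ w → w < b ^ (K + 1) →
      (w / b ^ K).Coprime b →
      B ^ (N - K) ≤ (((range (b ^ (2 * N + 1))).filter (fun n => n / b ^ (2 * N - K) = w ∧
        (Nat.digits b n).reverse = Nat.digits b n ∧ n.primeFactorsList.length ≤ r ∧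
        ∀ p ∈ n.primeFactorsList, (b : ℝ) ^ (η * ((N - K : ℕ) : ℝ)) < p)).card : ℝ) := by
  classical
  have hθ : 0 < 1 - θ := by linarith
  have hr' : 1 / lam + 44 * (2 / (1 - θ)) / (43 * κ) < r + 1 := by
    have e : 44 * (2 / (1 - θ)) / (43 * κ) = 88 / (43 * κ * (1 - θ)) := by
      field_simp
      norm_num
    rw [e]
    exact hr
  obtain ⟨c, hc0, hc⟩ := short0 (r := r) (ρ := 2 / (1 - θ)) (C0 := 2 * θ / (1 - θ) + 3) hb hs hst hbst hκ0 hκ
    hm4 hl0 hl1 hlam (by positivity) hr'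
  set A : ℝ := ((s : ℝ) * t) ^ 2 / (Eset s t).card with hA
  have hA0 : 0 < A := by linarith
  have hs0 : (0 : ℝ) < s := by exact_mod_cast (by omega : 0 < s)
  have ht0 : (0 : ℝ) < t := by exact_mod_cast (by omega : 0 < t)
  have hE : 0 < (Eset s t).card := by
    apply card_pos.2
    refine ⟨((⟨0, by omega⟩, ⟨0, by omega⟩), (⟨0, by omega⟩, ⟨0, by omega⟩)), ?_⟩
    unfold Eset
    simp
  have hER : (0 : ℝ) < (Eset s t).card := by exact_mod_cast hE
  -- the exponential beats the square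
  have h1 : ∀ᶠ L : ℕ in atTop, (L : ℝ) ^ 2 * (B / A) ^ L < c ^ 2 / B := by
    have h2 := tendsto_pow_const_mul_const_pow_of_abs_lt_one 2 (r := B / A) (by
      rw [abs_of_pos (by positivity), div_lt_one hA0]
      exact hBE)
    exact h2.eventually (gt_mem_nhds (by positivity))
  have h2 : ∀ᶠ L : ℕ in atTop, η ≤ (κ / 6 - η) * (L : ℝ) :=
    ((tendsto_natCast_atTop_atTop (R := ℝ)).const_mul_atTop (by linarith)).eventually_ge_atTop _
  have h3 := hc.and (h1.and (h2.and (eventually_ge_atTop 1)))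
  rw [eventually_atTop] at h3
  obtain ⟨L0, hL0⟩ := h3
  have h4 : ∀ᶠ N : ℕ in atTop, (L0 : ℝ) + 2 ≤ (1 - θ) * (N : ℝ) :=
    ((tendsto_natCast_atTop_atTop (R := ℝ)).const_mul_atTop hθ).eventually_ge_atTop _
  filter_upwards [h4] with N hN K hK w hw1 hw2 hwc
  have hKN : L0 + 2 + K ≤ N := by
    have : (L0 : ℝ) + 2 + K ≤ N := by linarith
    exact_mod_cast this
  obtain ⟨L, rfl⟩ : ∃ L, N = L + K + 1 := ⟨N - K - 1, by omega⟩
  have hLK : L + K + 1 - K = L + 1 := by omega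
  rw [hLK]
  obtain ⟨hcL, h5, h6, h7⟩ := hL0 L (by omega)
  have hb1 : 1 < b := by omega
  have hlen := dig_len hb1 hw1 hw2
  have hw0 : w ≠ 0 := by
    have : 0 < b ^ K := by positivity
    omega
  obtain ⟨u, hu⟩ := nvl_dvd (s := s) (t := t) hb1 hbst hlen L
  have hexp : 2 * (L + K + 1) - K = K + 2 * L + 2 := by omega
  obtain ⟨G, hG1, hG2⟩ := hcL (fun m => nvl b L w (dg b s t L hb1 hbst m)) u (2 * (L + K + 1) + 1)
    (by
      push_cast at hK ⊢
      have h8 : (K : ℝ) ≤ θ * (L + 1) / (1 - θ) := by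
        rw [le_div_iff₀ hθ]
        linarith
      have h9 : 2 / (1 - θ) * (L : ℝ) + (2 * θ / (1 - θ) + 3) = 2 * (L : ℝ) + 2 * (θ * (L + 1) / (1 - θ)) + 3 := by
        field_simp
        ring
      rw [h9]
      linarith)
    (fun m => ⟨by
        have h8 := nvl_div hb1 hlen L (dg b s t L hb1 hbst m)
        have h9 : 0 < nvl b L w (dg b s t L hb1 hbst m) := by
          rcases Nat.eq_zero_or_pos (nvl b L w (dg b s t L hb1 hbst m)) with h0 | h0
          · rw [h0, Nat.zero_div] at h8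
            exact absurd h8.symm hw0
          · exact h0
        exact h9, nvl_lt hb1 hlen L _, nvl_coprime hb (by omega) hst hbst hw1 hw2 hwc L m⟩) hu
  have hL00 : (0 : ℝ) < L := by exact_mod_cast h7
  -- the image
  have h8 : (G.image (fun m => nvl b L w (dg b s t L hb1 hbst m))).card ≤
      ((range (b ^ (2 * (L + K + 1) + 1))).filter (fun n => n / b ^ (2 * (L + K + 1) - K) = w ∧
        (Nat.digits b n).reverse = Nat.digits b n ∧ n.primeFactorsList.length ≤ r ∧
        ∀ p ∈ n.primeFactorsList, (b : ℝ) ^ (η * ((L + 1 : ℕ) : ℝ)) < p)).card := by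
    apply card_le_card
    intro n hn
    rw [mem_image] at hn
    obtain ⟨m, hm, rfl⟩ := hn
    rw [mem_filter, mem_range]
    obtain ⟨h9, h10⟩ := hG2 m hm
    refine ⟨nvl_lt hb1 hlen L _, ?_, nvl_pal hb1 hw0 L _, h9, fun p hp => lt_of_le_of_lt ?_ (h10 p hp)⟩
    · rw [hexp]
      exact nvl_div hb1 hlen L _
    · apply Real.rpow_le_rpow_of_exponent_le (by exact_mod_cast (by omega : 1 ≤ b))
      push_cast
      linarith
  have h9 : (G.card : ℝ) ^ 2 ≤ (((range (b ^ (2 * (L + K + 1) + 1))).filter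
      (fun n => n / b ^ (2 * (L + K + 1) - K) = w ∧
        (Nat.digits b n).reverse = Nat.digits b n ∧ n.primeFactorsList.length ≤ r ∧
        ∀ p ∈ n.primeFactorsList, (b : ℝ) ^ (η * ((L + 1 : ℕ) : ℝ)) < p)).card : ℝ) *
      ((Eset s t).card : ℝ) ^ L := by
    have h10 := card_sq_le (b := b) hb hbst G
    have h11 := h10.trans (Nat.mul_le_mul_right _ ((img_card hb1 hbst hlen L G).trans h8))
    exact_mod_cast h11
  refine le_trans ?_ ((div_le_iff₀ (by positivity)).2 h9)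
  have h10 : (c * ((s : ℝ) * t) ^ L / L) ^ 2 ≤ (G.card : ℝ) ^ 2 := pow_le_pow_left₀ (by positivity) hG1 2
  refine le_trans ?_ (div_le_div_of_nonneg_right h10 (by positivity))
  have h11 : (c * ((s : ℝ) * t) ^ L / L) ^ 2 / ((Eset s t).card : ℝ) ^ L = c ^ 2 * A ^ L / (L : ℝ) ^ 2 := by
    rw [hA, div_pow ((((s : ℝ) * t) ^ 2)), ← pow_mul, mul_comm 2 L, pow_mul]
    field_simp
  rw [h11]
  have hBA : (B / A) ^ L = B ^ L / A ^ L := div_pow _ _ _
  rw [hBA] at h5
  have hAL : 0 < A ^ L := by positivity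
  have hB0 : 0 < B := by linarith
  rw [lt_div_iff₀ hB0] at h5
  have h12 : (L : ℝ) ^ 2 * (B ^ L / A ^ L) * B = (L : ℝ) ^ 2 * B ^ (L + 1) / A ^ L := by
    rw [pow_succ]; ring
  rw [h12, div_lt_iff₀ hAL] at h5
  rw [le_div_iff₀ (by positivity)]
  linarith

end Pool.Agent.R471.PShort
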