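import Mathlib

/-!
# Modular exponentiation for kernel computations, and the Lucas/Pratt primality test
-/

namespace Pool.Agent.R471

/-- `pm f a m e = a ^ e % m` when `e < 2 ^ f`; evaluates quickly in the kernel. -/
def pm (a m : ℕ) : ℕ → ℕ → ℕ
  | 0, _ => 1 % m
  | f + 1, e => bif Nat.beq (e % 2) 0 then (fun h => h * h % m) (pm a m f (e / 2))
      else (fun h => h * h % m * a % m) (pm a m f (e / 2))

theorem pm_eq (a m : ℕ) : ∀ f e : ℕ, e < 2 ^ f → pm a m f e = a ^ e % m := by
  intro f
  induction f with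
  | zero =>
    intro e he
    have : e = 0 := by simpa using he
    subst this
    simp [pm]
  | succ f ih =>
    intro e he
    have h2 : e / 2 < 2 ^ f := by
      rw [pow_succ] at he
      omega
    have h3 := ih _ h2
    rcases Nat.mod_two_eq_zero_or_one e with h | h
    · have he' : e = 2 * (e / 2) := by omega
      unfold pm
      rw [h]
      have hb : Nat.beq 0 0 = true := rfl
      simp only [hb, cond_true]
      rw [h3]
      conv_rhs => rw [he', two_mul, pow_add]
      exact (Nat.mul_mod _ _ _).symm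
    · have he' : e = e / 2 + e / 2 + 1 := by omega
      unfold pm
      rw [h]
      have hb : Nat.beq 1 0 = false := rfl
      simp only [hb, cond_false]
      rw [h3]
      conv_rhs => rw [he', pow_add, pow_add, pow_one]
      rw [← Nat.mul_mod, Nat.mod_mul_mod]

/-- Pratt certificate: `L` is the list of the prime factors of `p - 1` (with multiplicity), `a` is a
primitive root. -/
theorem pratt (p a : ℕ) (L : List ℕ) (hp : 1 < p) (hL : ∀ q ∈ L, q.Prime) (hprod : L.prod = p - 1)
    (h1 : a ^ (p - 1) % p = 1) (h2 : ∀ q ∈ L, a ^ ((p - 1) / q) % p ≠ 1) : p.Prime := by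
  refine lucas_primality p (a : ZMod p) ?_ ?_
  · have : ((a ^ (p - 1) : ℕ) : ZMod p) = ((1 : ℕ) : ZMod p) := by
      rw [ZMod.natCast_eq_natCast_iff]
      unfold Nat.ModEq
      rw [h1, Nat.mod_eq_of_lt hp]
    push_cast at this
    simpa using this
  · intro q hq hqd hone
    have hmem : q ∈ L := by
      rw [← hprod] at hqd
      obtain ⟨r, hr, hqr⟩ := (Nat.Prime.prime hq).dvd_prod_iff.1 hqd
      rwa [(Nat.prime_dvd_prime_iff_eq hq (hL r hr)).1 hqr]
    apply h2 q hmem
    have : ((a ^ ((p - 1) / q) : ℕ) : ZMod p) = ((1 : ℕ) : ZMod p) := by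
      push_cast
      simpa using hone
    rw [ZMod.natCast_eq_natCast_iff] at this
    unfold Nat.ModEq at this
    rw [this, Nat.mod_eq_of_lt hp]

/-- the Boolean check of a Pratt certificate, apart from the primality of the elements of `L` -/
def prattCheck (p a f : ℕ) (L : List ℕ) : Bool :=
  Nat.ble 2 p && Nat.ble (p + 1) (2 ^ f) && Nat.beq (L.foldr (fun x y => x * y) 1) (p - 1) &&
    Nat.beq (pm a p f (p - 1)) 1 && L.all fun q => !(Nat.beq (pm a p f ((p - 1) / q)) 1)

theorem pratt' (p a f : ℕ) (L : List ℕ) (hL : ∀ q ∈ L, q.Prime) (h : prattCheck p a f L = true) :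
    p.Prime := by
  unfold prattCheck at h
  simp only [Bool.and_eq_true, Nat.ble_eq, List.all_eq_true, Bool.not_eq_true'] at h
  obtain ⟨⟨⟨⟨h1, h2⟩, h3⟩, h4⟩, h5⟩ := h
  have hlt : ∀ e, e ≤ p - 1 → e < 2 ^ f := fun e he => by omega
  refine pratt p a L (by omega) hL ?_ ?_ ?_
  · have := Nat.eq_of_beq_eq_true h3
    rw [← this]
    rfl
  · have := Nat.eq_of_beq_eq_true h4
    rwa [pm_eq _ _ _ _ (hlt _ le_rfl)] at this
  · intro q hq hq1
    have := h5 q hq
    rw [pm_eq _ _ _ _ (hlt _ (Nat.div_le_self _ _)), hq1] at this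
    simp at this

end Pool.Agent.R471
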