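import Mathlib
/-!
A kernel-friendly version of the add-or-subtract digit reversal map.
-/
set_option autoImplicit false

namespace Pool.Agent.R471.RC

/-- the reversal of the decimal digits of `D` (leading zeros of the result are dropped) -/
def rev (D : ℕ) : ℕ := Nat.ofDigits 10 (Nat.digits 10 D).reverse

/-- the map `T` -/
def T (D : ℕ) : ℕ := if rev D < D then D - rev D else D + rev D

def revF : ℕ → ℕ → ℕ → ℕ
  | 0, _, a => a
  | k + 1, n, a => bif Nat.beq n 0 then a else revF k (n / 10) (a * 10 + n % 10)

lemma revF_eq (k : ℕ) : ∀ n a, n < 10 ^ k → revF k n a = (Nat.digits 10 n).foldl (fun x y => y + 10 * x) a := by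
  induction k with
  | zero =>
    intro n a hn
    have : n = 0 := by simpa using hn
    subst this
    simp [revF]
  | succ k ih =>
    intro n a hn
    unfold revF
    rcases Nat.eq_zero_or_pos n with h | h
    · subst h
      simp
    · have hb : Nat.beq n 0 = false := by
        rw [Bool.eq_false_iff]
        intro hh
        have := Nat.eq_of_beq_eq_true hh
        omega
      rw [hb, cond_false, ih (n / 10) _ (by rw [pow_succ] at hn; omega), Nat.digits_def' (by norm_num) h,
        List.foldl_cons]
      congr 1
      ring

lemma revF_rev (k n : ℕ) (hn : n < 10 ^ k) : revF k n 0 = rev n := by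
  rw [revF_eq k n 0 hn, rev, Nat.ofDigits_eq_foldr, List.foldr_reverse]
  rfl

/-- one step -/
def TF (k D : ℕ) : ℕ := (fun r => bif Nat.blt r D then D - r else D + r) (revF k D 0)

lemma TF_eq (k D : ℕ) (hn : D < 10 ^ k) : TF k D = T D := by
  unfold TF T
  simp only
  rw [revF_rev k D hn]
  by_cases h : rev D < D
  · rw [if_pos h]
    have : Nat.blt (rev D) D = true := by simpa using h
    rw [this, cond_true]
  · rw [if_neg h]
    have : Nat.blt (rev D) D = false := by
      rw [Bool.eq_false_iff, ne_eq, Nat.blt_eq]
      exact h
    rw [this, cond_false]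

/-- the first `p` steps starting from `x`: they stay below `10 ^ k`, do not meet `D`, except that the last one
is `D` -/
def run (k B D : ℕ) : ℕ → ℕ → Bool
  | 0, _ => false
  | p + 1, x => Nat.blt x B && (fun y => bif Nat.beq y D then Nat.beq p 0 else run k B D p y) (TF k x)

lemma run_spec (k B D : ℕ) (hB : B ≤ 10 ^ k) (p : ℕ) : ∀ x, run k B D p x = true →
    T^[p] x = D ∧ ∀ j, 0 < j → j < p → T^[j] x ≠ D := by
  induction p with
  | zero => intro x h; simp [run] at h
  | succ p ih =>
    intro x h
    unfold run at h
    simp only [Bool.and_eq_true, Nat.blt_eq] at h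
    obtain ⟨h1, h2⟩ := h
    rw [TF_eq k x (h1.trans_le hB)] at h2
    by_cases hy : T x = D
    · have hb : Nat.beq (T x) D = true := by simpa using hy
      rw [hb, cond_true] at h2
      have hp : p = 0 := by simpa using h2
      subst hp
      refine ⟨hy, fun j hj hj' => by omega⟩
    · have hb : Nat.beq (T x) D = false := by
        rw [Bool.eq_false_iff]
        intro hh
        exact hy (Nat.eq_of_beq_eq_true hh)
      rw [hb, cond_false] at h2
      obtain ⟨h3, h4⟩ := ih _ h2
      refine ⟨by rw [Function.iterate_succ_apply]; exact h3, fun j hj hj' => ?_⟩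
      rcases Nat.exists_eq_succ_of_ne_zero (by omega : j ≠ 0) with ⟨i, rfl⟩
      rw [Nat.succ_eq_add_one, Function.iterate_succ_apply]
      rcases Nat.eq_zero_or_pos i with h0 | h0
      · subst h0
        exact hy
      · exact h4 i h0 (by omega)

end Pool.Agent.R471.RC
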